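import Pool.Agent.Lib.MP_b54217_ag.E.Row

/-!
# The hyperplane `x_o = 0`, tuples of polynomials
-/

set_option autoImplicit false

namespace Pool.Agent.SV.E

open MvPolynomial Module

/-- The exponents of `D` without the variable `o`. -/
noncomputable def lo {σ : Type} (o : σ) (D : Finset (σ →₀ ℕ)) : Finset (σ →₀ ℕ) :=
  D.filter fun a => a o = 0

/-- `D'`: the exponents `a` with `a + e_o ∈ D`. -/
noncomputable def dw {σ : Type} (o : σ) (D : Finset (σ →₀ ℕ)) : Finset (σ →₀ ℕ) := by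
  classical exact (D.filter fun a => a o ≠ 0).image fun a => a - Finsupp.single o 1

theorem mem_lo {σ : Type} {o : σ} {D : Finset (σ →₀ ℕ)} {a : σ →₀ ℕ} :
    a ∈ lo o D ↔ a ∈ D ∧ a o = 0 := Finset.mem_filter

theorem mem_dw {σ : Type} {o : σ} {D : Finset (σ →₀ ℕ)} {a : σ →₀ ℕ} :
    a ∈ dw o D ↔ a + Finsupp.single o 1 ∈ D := by
  classical
  unfold dw
  rw [Finset.mem_image]
  constructor
  · rintro ⟨b, hb, rfl⟩
    rw [Finset.mem_filter] at hb
    rw [tsub_add_cancel_of_le]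
    · exact hb.1
    · rw [Finsupp.single_le_iff]
      exact Nat.one_le_iff_ne_zero.2 hb.2
  · intro h
    refine ⟨a + Finsupp.single o 1, Finset.mem_filter.2 ⟨h, by simp⟩, ?_⟩
    exact add_tsub_cancel_right _ _

theorem card_lo_add_card_dw {σ : Type} (o : σ) (D : Finset (σ →₀ ℕ)) :
    (lo o D).card + (dw o D).card = D.card := by
  classical
  unfold lo dw
  rw [Finset.card_image_of_injOn, Finset.card_filter_add_card_filter_not]
  intro a ha b hb hab
  simp only [Finset.coe_filter, Set.mem_ofPred_eq] at ha hb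
  have h1 : ∀ c : σ →₀ ℕ, c o ≠ 0 → c - Finsupp.single o 1 + Finsupp.single o 1 = c := by
    intro c hc
    rw [tsub_add_cancel_of_le]
    rw [Finsupp.single_le_iff]
    exact Nat.one_le_iff_ne_zero.2 hc
  rw [← h1 a ha.2, ← h1 b hb.2]
  exact congrArg (· + Finsupp.single o 1) hab

/-- `F = G + x_o F'`. -/
theorem exists_decomp {σ : Type} (o : σ) {D : Finset (σ →₀ ℕ)} {F : MvPolynomial σ ℂ}
    (hF : F ∈ H D) : ∃ G ∈ H (lo o D), ∃ F' ∈ H (dw o D), F = G + X o * F' := by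
  classical
  refine ⟨F.modMonomial (Finsupp.single o 1), ?_, F.divMonomial (Finsupp.single o 1), ?_, ?_⟩
  · rw [mem_H']
    intro a ha
    by_cases h : Finsupp.single o 1 ≤ a
    · exact coeff_modMonomial_of_le _ h
    · rw [coeff_modMonomial_of_not_le _ h]
      rw [mem_H'] at hF
      refine hF a fun h' => ha (mem_lo.2 ⟨h', ?_⟩)
      by_contra h2
      exact h (Finsupp.single_le_iff.2 (Nat.one_le_iff_ne_zero.2 h2))
  · rw [mem_H']
    intro a ha
    rw [coeff_divMonomial]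
    rw [mem_H'] at hF
    refine hF _ fun h' => ha (mem_dw.2 ?_)
    rwa [add_comm] at h'
  · rw [add_comm]
    exact (divMonomial_add_modMonomial_single F o).symm

/-- The converse. -/
theorem comp_mem {σ : Type} {o : σ} {D : Finset (σ →₀ ℕ)} {G F' : MvPolynomial σ ℂ}
    (hG : G ∈ H (lo o D)) (hF' : F' ∈ H (dw o D)) : G + X o * F' ∈ H D := by
  classical
  refine Submodule.add_mem _ ?_ ?_
  · rw [mem_H'] at hG ⊢
    exact fun a ha => hG a fun h => ha (mem_lo.1 h).1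
  · rw [mem_H'] at hF' ⊢
    intro a ha
    rw [coeff_X_mul']
    split_ifs with h
    · refine hF' _ fun h' => ha ?_
      rw [mem_dw, tsub_add_cancel_of_le] at h'
      · exact h'
      · rw [Finsupp.single_le_iff]
        exact Nat.one_le_iff_ne_zero.2 (Finsupp.mem_support_iff.1 h)
    · rfl

theorem ev_Xmul {σ : Type} (o : σ) (y : σ → ℂ) (f : MvPolynomial σ ℂ) :
    ev y (X o * f) = y o * ev y f := by
  simp [ev_apply]

theorem dv_Xmul {σ : Type} [DecidableEq σ] (o i : σ) (y : σ → ℂ) (f : MvPolynomial σ ℂ) :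
    dv i y (X o * f) = (if i = o then ev y f else 0) + y o * dv i y f := by
  rw [dv_apply, dv_apply, ev_apply, Derivation.leibniz, pderiv_X]
  by_cases h : i = o
  · subst h
    simp
    ring
  · simp [h, Ne.symm h]

theorem dv_o {σ : Type} {o : σ} {D : Finset (σ →₀ ℕ)} {G : MvPolynomial σ ℂ}
    (hG : G ∈ H (lo o D)) (y : σ → ℂ) : dv o y G = 0 := by
  classical
  rw [dv_apply, pderiv_eq_zero_of_notMem_vars, map_zero]
  rw [mem_vars_iff_mem_support]
  rintro ⟨a, ha, ho⟩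
  have := (mem_lo.1 (mem_H.1 hG ha)).2
  exact Finsupp.mem_support_iff.1 ho this

theorem ev_update {σ : Type} [DecidableEq σ] {o : σ} {D : Finset (σ →₀ ℕ)}
    {G : MvPolynomial σ ℂ} (hG : G ∈ H (lo o D)) (y : σ → ℂ) (s : ℂ) :
    ev (Function.update y o s) G = ev y G := by
  rw [ev_apply, ev_apply, eval_eq, eval_eq]
  refine Finset.sum_congr rfl fun a ha => ?_
  congr 1
  refine Finset.prod_congr rfl fun i hi => ?_
  have hio : i ≠ o := by
    rintro rfl
    exact Finsupp.mem_support_iff.1 hi (mem_lo.1 (mem_H.1 hG ha)).2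
  rw [Function.update_of_ne hio]

theorem pderiv_mem_lo {σ : Type} {o : σ} {D : Finset (σ →₀ ℕ)} {G : MvPolynomial σ ℂ}
    (hG : G ∈ H (lo o D)) (i : σ) : ∃ D', pderiv i G ∈ H (lo o D') := by
  classical
  refine ⟨(pderiv i G).support, ?_⟩
  rw [mem_H]
  intro a ha
  refine mem_lo.2 ⟨ha, ?_⟩
  by_contra hao
  apply MvPolynomial.mem_support_iff.1 ha
  rw [coeff_pderiv]
  have : coeff (a + Finsupp.single i 1) G = 0 := by
    rw [mem_H'] at hG
    refine hG _ fun h => ?_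
    have := (mem_lo.1 h).2
    simp at this
    exact hao this.1
  rw [this, zero_mul]

theorem dv_update {σ : Type} [DecidableEq σ] {o : σ} {D : Finset (σ →₀ ℕ)}
    {G : MvPolynomial σ ℂ} (hG : G ∈ H (lo o D)) (i : σ) (y : σ → ℂ) (s : ℂ) :
    dv i (Function.update y o s) G = dv i y G := by
  obtain ⟨D', hD'⟩ := pderiv_mem_lo hG i
  rw [dv_apply, dv_apply, ← ev_apply, ← ev_apply]
  exact ev_update hD' y s

/-- Tuples of polynomials. -/
abbrev EN (n : ℕ) (σ : Type) : Type := Fin n → MvPolynomial σ ℂ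

/-- Tuples of elements of `H A`. -/
noncomputable def HN {σ : Type} (n : ℕ) (A : Finset (σ →₀ ℕ)) : Submodule ℂ (EN n σ) :=
  Submodule.pi Set.univ fun _ => H A

theorem mem_HN {σ : Type} {n : ℕ} {A : Finset (σ →₀ ℕ)} {F : EN n σ} :
    F ∈ HN n A ↔ ∀ l, F l ∈ H A := by
  simp [HN, Submodule.mem_pi]

/-- The dimension of a product of subspaces. -/
theorem finrank_pi {σ : Type} {n : ℕ} (V : Fin n → Submodule ℂ (MvPolynomial σ ℂ))
    [∀ l, FiniteDimensional ℂ (V l)] :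
    FiniteDimensional ℂ (Submodule.pi Set.univ V : Submodule ℂ (EN n σ)) ∧
    finrank ℂ (Submodule.pi Set.univ V : Submodule ℂ (EN n σ)) = ∑ l, finrank ℂ (V l) := by
  let e : (Submodule.pi Set.univ V : Submodule ℂ (EN n σ)) ≃ₗ[ℂ] ((l : Fin n) → V l) :=
    { toFun := fun F l => ⟨F.1 l, F.2 l (Set.mem_univ l)⟩
      invFun := fun F => ⟨fun l => (F l).1, fun l _ => (F l).2⟩
      map_add' := fun _ _ => rfl
      map_smul' := fun _ _ => rfl
      left_inv := fun _ => rfl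
      right_inv := fun _ => rfl }
  refine ⟨Module.Finite.equiv e.symm, ?_⟩
  rw [e.finrank_eq, finrank_pi_fintype]

instance {σ : Type} (n : ℕ) (A : Finset (σ →₀ ℕ)) : FiniteDimensional ℂ (HN n A) :=
  (finrank_pi fun _ => H A).1

theorem finrank_HN {σ : Type} (n : ℕ) (A : Finset (σ →₀ ℕ)) :
    finrank ℂ (HN n A) = n * A.card := by
  unfold HN
  rw [(finrank_pi fun _ => H A).2]
  simp [finrank_H]

/-- The value of the component `l` at `y`. -/
noncomputable def evN {σ : Type} {n : ℕ} (l : Fin n) (y : σ → ℂ) : EN n σ →ₗ[ℂ] ℂ :=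
  (ev y).comp (LinearMap.proj l)

/-- The derivative `∂_i` of `∑ u_l F_l` at `y`. -/
noncomputable def dvN {σ : Type} {n : ℕ} (u : Fin n → ℂ) (i : σ) (y : σ → ℂ) :
    EN n σ →ₗ[ℂ] ℂ :=
  ∑ l, u l • (dv i y).comp (LinearMap.proj l)

/-- The value of `∑ u_l F_l` at `y`. -/
noncomputable def evu {σ : Type} {n : ℕ} (u : Fin n → ℂ) (y : σ → ℂ) : EN n σ →ₗ[ℂ] ℂ :=
  ∑ l, u l • (ev y).comp (LinearMap.proj l)

theorem evN_apply {σ : Type} {n : ℕ} (l : Fin n) (y : σ → ℂ) (F : EN n σ) :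
    evN l y F = ev y (F l) := rfl

theorem dvN_apply {σ : Type} {n : ℕ} (u : Fin n → ℂ) (i : σ) (y : σ → ℂ) (F : EN n σ) :
    dvN u i y F = ∑ l, u l * dv i y (F l) := by
  simp [dvN]

theorem evu_apply {σ : Type} {n : ℕ} (u : Fin n → ℂ) (y : σ → ℂ) (F : EN n σ) :
    evu u y F = ∑ l, u l * ev y (F l) := by
  simp [evu]

/-- The conditions of the full points `(u_k, y_k)`: `F(y_k) = 0` and all derivatives of
`∑ u_{k,l} F_l` vanish at `y_k`. -/
noncomputable def full {σ I : Type} {n : ℕ} (u : I → Fin n → ℂ) (y : I → σ → ℂ) :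
    I × (Fin n ⊕ σ) → (EN n σ →ₗ[ℂ] ℂ)
  | (k, Sum.inl l) => evN l (y k)
  | (k, Sum.inr i) => dvN (u k) i (y k)

theorem mem_Z_full {σ I : Type} {n : ℕ} {u : I → Fin n → ℂ} {y : I → σ → ℂ}
    {V : Submodule ℂ (EN n σ)} {F : EN n σ} :
    F ∈ Z V (full u y) ↔ F ∈ V ∧ (∀ k l, ev (y k) (F l) = 0) ∧
      ∀ k i, ∑ l, u k l * dv i (y k) (F l) = 0 := by
  rw [mem_Z]
  constructor
  · rintro ⟨h1, h2⟩
    refine ⟨h1, fun k l => h2 (k, Sum.inl l), fun k i => ?_⟩
    rw [← dvN_apply]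
    exact h2 (k, Sum.inr i)
  · rintro ⟨h1, h2, h3⟩
    refine ⟨h1, ?_⟩
    rintro ⟨k, l | i⟩
    · exact h2 k l
    · rw [full, dvN_apply]
      exact h3 k i

end Pool.Agent.SV.E
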