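import Pool.Agent.Lib.MP_b54217_ag.E.Lo
import Pool.Agent.Lib.MP_b54217_ag.I.Dd

/-!
# Counting exponents

`DS S d`: the exponents of `DD M d` supported in `S`.
-/

set_option autoImplicit false

namespace Pool.Agent.SV.E

open MvPolynomial Pool.Agent.SV.G

variable {k : ℕ} {M : Fin k → ℕ}

/-- The exponents of `DD M d` supported in `S`. -/
noncomputable def DS (S : Finset (Sg M)) (d : Fin k → ℕ) : Finset (Sg M →₀ ℕ) := by
  classical exact (DD M d).filter fun a => ∀ x, x ∉ S → a x = 0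

theorem mem_DS {S : Finset (Sg M)} {d : Fin k → ℕ} {a : Sg M →₀ ℕ} :
    a ∈ DS S d ↔ (∀ i, ∑ j, a ⟨i, j⟩ ≤ d i) ∧ ∀ x, x ∉ S → a x = 0 := by
  classical
  rw [DS, Finset.mem_filter, mem_DD]

theorem DS_univ (d : Fin k → ℕ) : DS (Finset.univ : Finset (Sg M)) d = DD M d := by
  ext a
  rw [mem_DS, mem_DD]
  simp

theorem sum_add_single (i : Fin k) (x : Sg M) (a : Sg M →₀ ℕ) :
    ∑ j, (a + Finsupp.single x 1 : Sg M →₀ ℕ) ⟨i, j⟩ =
      ∑ j, a ⟨i, j⟩ + if x.1 = i then 1 else 0 := by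
  classical
  simp only [Finsupp.add_apply, Finset.sum_add_distrib]
  congr 1
  obtain ⟨i', j'⟩ := x
  by_cases h : i' = i
  · subst h
    rw [if_pos rfl, Finset.sum_eq_single j']
    · simp
    · intro b _ hb
      rw [Finsupp.single_apply, if_neg]
      intro h
      apply hb
      have := Sigma.mk.inj_iff.1 h
      exact (eq_of_heq this.2).symm
    · simp
  · rw [if_neg h]
    refine Finset.sum_eq_zero fun j _ => ?_
    rw [Finsupp.single_apply, if_neg]
    intro h'
    exact h (Sigma.mk.inj_iff.1 h').1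

/-- `d - e_i`. -/
def dm (i : Fin k) (d : Fin k → ℕ) : Fin k → ℕ := fun i' => if i = i' then d i' - 1 else d i'

theorem mem_DS_add {S : Finset (Sg M)} {d : Fin k → ℕ} {a : Sg M →₀ ℕ} {x : Sg M}
    (hx : x ∈ S) (hd : 1 ≤ d x.1) :
    a + Finsupp.single x 1 ∈ DS S d ↔ a ∈ DS S (dm x.1 d) := by
  classical
  rw [mem_DS, mem_DS]
  refine and_congr (forall_congr' fun i => ?_) (forall_congr' fun x' => ?_)
  · rw [sum_add_single, dm]
    split_ifs with h
    · subst h
      omega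
    · simp
  · refine imp_congr_right fun hx' => ?_
    have hne : x ≠ x' := by
      rintro rfl
      exact hx' hx
    simp [hne]

theorem DS_mono {S : Finset (Sg M)} {d d' : Fin k → ℕ} (h : ∀ i, d i ≤ d' i) :
    DS S d ⊆ DS S d' := by
  intro a ha
  rw [mem_DS] at ha ⊢
  exact ⟨fun i => (ha.1 i).trans (h i), ha.2⟩

theorem dm_le (i : Fin k) (d : Fin k → ℕ) (i' : Fin k) : dm i d i' ≤ d i' := by
  unfold dm
  split_ifs <;> omega

theorem dw_DD {d : Fin k → ℕ} (x : Sg M) (hd : 1 ≤ d x.1) :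
    dw x (DD M d) = DD M (dm x.1 d) := by
  ext a
  rw [mem_dw, ← DS_univ, ← DS_univ, mem_DS_add (Finset.mem_univ x) hd]

theorem lo_DD {d : Fin k → ℕ} (x : Sg M) :
    lo x (DD M d) = DS (Finset.univ.erase x) d := by
  classical
  ext a
  rw [mem_lo, mem_DS, mem_DD]
  refine and_congr_right fun _ => ?_
  constructor
  · intro h x' hx'
    have : x' = x := by
      by_contra hne
      exact hx' (Finset.mem_erase.2 ⟨hne, Finset.mem_univ _⟩)
    rw [this, h]
  · intro h
    exact h x (by simp)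

theorem sh_DS {S : Finset (Sg M)} {d : Fin k → ℕ} {x : Sg M} (hx : x ∈ S) (hd : 1 ≤ d x.1) :
    sh x (DS S d) = DS S (dm x.1 d) := by
  ext a
  rw [mem_sh, mem_DS_add hx hd]
  exact ⟨fun h => h.2, fun h => ⟨DS_mono (dm_le _ _) h, h⟩⟩

/-- The number of variables of the block `i` in `S`. -/
def bs (S : Finset (Sg M)) (i : Fin k) : ℕ := (Finset.univ.filter fun j : Fin (M i) =>
  (⟨i, j⟩ : Sg M) ∈ S).card

/-- THE RATIO LEMMA. -/
theorem ratio (S : Finset (Sg M)) (d : Fin k → ℕ) (i : Fin k) (hd : 1 ≤ d i) :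
    (DS S d).card * d i = (DS S (dm i d)).card * (bs S i + d i) := by
  classical
  set A := DS S d with hA
  set A' := DS S (dm i d) with hA'
  have hsub : A' ⊆ A := DS_mono (dm_le _ _)
  have hle : ∀ a ∈ A, ∑ j, a ⟨i, j⟩ ≤ d i := fun a ha => (mem_DS.1 ha).1 i
  have hle' : ∀ a ∈ A', ∑ j, a ⟨i, j⟩ + 1 ≤ d i := fun a ha => by
    have := (mem_DS.1 ha).1 i
    simp only [dm, if_true] at this
    omega
  -- slack
  have h1 : ∑ a ∈ A, (d i - ∑ j, a ⟨i, j⟩) = ∑ a ∈ A', (d i - ∑ j, a ⟨i, j⟩) := by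
    symm
    refine Finset.sum_subset hsub fun a ha hna => ?_
    have h2 := hle a ha
    by_contra hne
    apply hna
    rw [hA', mem_DS]
    rw [hA, mem_DS] at ha
    refine ⟨fun i' => ?_, ha.2⟩
    rw [dm]
    split_ifs with h
    · subst h
      omega
    · exact ha.1 i'
  -- shifts
  have h2 : ∀ j : Fin (M i), ∑ a ∈ A, a ⟨i, j⟩ =
      ∑ b ∈ A', if (⟨i, j⟩ : Sg M) ∈ S then b ⟨i, j⟩ + 1 else 0 := by
    intro j
    by_cases hj : (⟨i, j⟩ : Sg M) ∈ S
    · simp only [hj, if_true]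
      have h3 : ∑ a ∈ A, a ⟨i, j⟩ = ∑ a ∈ A.filter (fun a => a ⟨i, j⟩ ≠ 0), a ⟨i, j⟩ := by
        rw [Finset.sum_filter_of_ne]
        intro a _ h
        exact h
      rw [h3]
      symm
      refine Finset.sum_nbij' (fun b => b + Finsupp.single ⟨i, j⟩ 1)
        (fun a => a - Finsupp.single ⟨i, j⟩ 1) ?_ ?_ ?_ ?_ ?_
      · intro b hb
        rw [Finset.mem_filter]
        exact ⟨(mem_DS_add (x := ⟨i, j⟩) hj hd).2 hb, by simp⟩
      · intro a ha
        rw [Finset.mem_filter] at ha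
        rw [hA', ← mem_DS_add (x := ⟨i, j⟩) hj hd, tsub_add_cancel_of_le]
        · exact ha.1
        · rw [Finsupp.single_le_iff]
          exact Nat.one_le_iff_ne_zero.2 ha.2
      · intro b _
        exact add_tsub_cancel_right _ _
      · intro a ha
        rw [Finset.mem_filter] at ha
        refine tsub_add_cancel_of_le ?_
        rw [Finsupp.single_le_iff]
        exact Nat.one_le_iff_ne_zero.2 ha.2
      · intro b _
        simp
    · simp only [hj, if_false, Finset.sum_const_zero]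
      exact Finset.sum_eq_zero fun a ha => (mem_DS.1 ha).2 _ hj
  have h4 : A.card * d i = ∑ a ∈ A, ((d i - ∑ j, a ⟨i, j⟩) + ∑ j, a ⟨i, j⟩) := by
    rw [Finset.sum_congr rfl fun a ha => Nat.sub_add_cancel (hle a ha), Finset.sum_const,
      smul_eq_mul]
  rw [h4, Finset.sum_add_distrib, h1, Finset.sum_comm, Finset.sum_congr rfl fun j _ => h2 j,
    Finset.sum_comm, ← Finset.sum_add_distrib]
  have h5 : ∀ b ∈ A', (d i - ∑ j, b ⟨i, j⟩ + ∑ j : Fin (M i),
      if (⟨i, j⟩ : Sg M) ∈ S then b ⟨i, j⟩ + 1 else 0) = bs S i + d i := by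
    intro b hb
    have h6 : ∑ j : Fin (M i), (if (⟨i, j⟩ : Sg M) ∈ S then b ⟨i, j⟩ + 1 else 0) =
        ∑ j, b ⟨i, j⟩ + bs S i := by
      have h7 : ∀ j : Fin (M i), (if (⟨i, j⟩ : Sg M) ∈ S then b ⟨i, j⟩ + 1 else 0) =
          b ⟨i, j⟩ + if (⟨i, j⟩ : Sg M) ∈ S then 1 else 0 := by
        intro j
        split_ifs with h
        · rfl
        · rw [(mem_DS.1 hb).2 _ h]
      rw [Finset.sum_congr rfl fun j _ => h7 j, Finset.sum_add_distrib, bs,
        Finset.card_filter]
    rw [h6]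
    have := hle' b hb
    omega
  rw [Finset.sum_congr rfl h5, Finset.sum_const, smul_eq_mul]

theorem bs_univ (i : Fin k) : bs (Finset.univ : Finset (Sg M)) i = M i := by
  simp [bs]

theorem bs_erase (x : Sg M) (i : Fin k) :
    bs (Finset.univ.erase x) i = if i = x.1 then M i - 1 else M i := by
  classical
  obtain ⟨i', j'⟩ := x
  split_ifs with h
  · simp only at h
    subst h
    have : (Finset.univ.filter fun j : Fin (M i) =>
        (⟨i, j⟩ : Sg M) ∈ Finset.univ.erase (⟨i, j'⟩ : Sg M)) = Finset.univ.erase j' := by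
      ext j
      simp
    rw [bs, this, Finset.card_erase_of_mem (Finset.mem_univ _), Finset.card_univ,
      Fintype.card_fin]
  · have : (Finset.univ.filter fun j : Fin (M i) =>
        (⟨i, j⟩ : Sg M) ∈ Finset.univ.erase (⟨i', j'⟩ : Sg M)) = Finset.univ := by
      ext j
      simp only [Finset.mem_filter, Finset.mem_univ, true_and, Finset.mem_erase, and_true,
        iff_true]
      intro h'
      exact h (Sigma.mk.inj_iff.1 h').1
    rw [bs, this, Finset.card_univ, Fintype.card_fin]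

/-- Capacities from a numerical inequality. -/
theorem cap_of_le {S : Finset (Sg M)} {d : Fin k → ℕ} {i : Fin k} (hd : 1 ≤ d i) {m n : ℕ}
    (hn : 1 ≤ n) (h : (m + 1) * bs S i ≤ (n - 1) * d i) :
    (m + 1) * (DS S d).card ≤ (n + m) * (DS S (dm i d)).card := by
  have h1 := ratio S d i hd
  have h2 : (m + 1) * (bs S i + d i) ≤ (n + m) * d i := by
    obtain ⟨n', rfl⟩ : ∃ n', n = n' + 1 := ⟨n - 1, by omega⟩
    rw [Nat.add_sub_cancel] at h
    nlinarith
  refine Nat.le_of_mul_le_mul_right ?_ (hd : 0 < d i)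
  calc (m + 1) * (DS S d).card * d i = (m + 1) * ((DS S d).card * d i) := by ring
    _ = (DS S (dm i d)).card * ((m + 1) * (bs S i + d i)) := by rw [h1]; ring
    _ ≤ (DS S (dm i d)).card * ((n + m) * d i) := Nat.mul_le_mul_left _ h2
    _ = (n + m) * (DS S (dm i d)).card * d i := by ring

end Pool.Agent.SV.E
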