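import Pool.Agent.Lib.MP_b54217_ag.E.Res

/-!
# Theorem NLE: general position of the systems, counting
-/

set_option autoImplicit false

namespace Pool.Agent.SV.E

open MvPolynomial Module

section polN

variable {σ τ : Type} {n : ℕ}

theorem isPol_evN (l : Fin n) (F : EN n σ) {y : (τ → ℂ) → σ → ℂ}
    (hy : ∀ i, IsPol fun p => y p i) : IsPol fun p => evN l (y p) F :=
  IsPol.ev (F l) hy

theorem isPol_evu (F : EN n σ) {u : (τ → ℂ) → Fin n → ℂ} {y : (τ → ℂ) → σ → ℂ}
    (hu : ∀ l, IsPol fun p => u p l) (hy : ∀ i, IsPol fun p => y p i) :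
    IsPol fun p => evu (u p) (y p) F := by
  simp only [evu_apply]
  exact IsPol.sum _ fun l _ => (hu l).mul (IsPol.ev (F l) hy)

theorem isPol_dvN (F : EN n σ) {u : (τ → ℂ) → Fin n → ℂ} (i : σ) {y : (τ → ℂ) → σ → ℂ}
    (hu : ∀ l, IsPol fun p => u p l) (hy : ∀ i, IsPol fun p => y p i) :
    IsPol fun p => dvN (u p) i (y p) F := by
  simp only [dvN_apply]
  exact IsPol.sum _ fun l _ => (hu l).mul (IsPol.dv i (F l) hy)

theorem isPol_trf {IA IB : Type} [DecidableEq σ] [Fintype σ] (o : σ)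
    {uA : (τ → ℂ) → IA → Fin n → ℂ} {a : (τ → ℂ) → IA → σ → ℂ} {β : IB → Fin n}
    {b : (τ → ℂ) → IB → σ → ℂ} (hu : ∀ k l, IsPol fun p => uA p k l)
    (ha : ∀ k i, IsPol fun p => a p k i) (hb : ∀ k i, IsPol fun p => b p k i)
    (r : (IA × (Fin n ⊕ {i : σ // i ≠ o})) ⊕ IB) (F : EN n σ) :
    IsPol fun p => trf o (uA p) (a p) β (b p) r F := by
  rcases r with ⟨k, l | i⟩ | k
  · exact isPol_evN l F (ha k)
  · exact isPol_dvN F i.1 (hu k) (ha k)
  · exact isPol_evN (β k) F (hb k)

end polN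

theorem card_fst (n x : ℕ) (l : Fin n) :
    (Finset.univ.filter fun k : Fin n × Fin x => k.1 = l).card = x := by
  have : (Finset.univ.filter fun k : Fin n × Fin x => k.1 = l) =
      Finset.univ.map ⟨fun i : Fin x => (l, i), fun i j h => (Prod.ext_iff.1 h).2⟩ := by
    ext ⟨a, b⟩
    simp [eq_comm]
  rw [this, Finset.card_map, Finset.card_univ, Fintype.card_fin]

/-- The own row of a point of `C`. -/
def gm {n q s : ℕ} (hs : s ≤ n) : (Fin n × Fin q) ⊕ Fin s → Fin n :=
  Sum.elim Prod.fst (Fin.castLE hs)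

theorem card_gm {n q s : ℕ} (hs : s ≤ n) (l : Fin n) :
    (Finset.univ.filter fun k : (Fin n × Fin q) ⊕ Fin s => gm hs k = l).card =
      q + if (l : ℕ) < s then 1 else 0 := by
  have h1 : (Finset.univ.filter fun k : (Fin n × Fin q) ⊕ Fin s => gm hs k = l) =
      (Finset.univ.filter fun k : Fin n × Fin q => k.1 = l).disjSum
        (Finset.univ.filter fun k : Fin s => Fin.castLE hs k = l) := by
    ext (k | k)
    · simp [gm]
    · simp [gm]
  rw [h1, Finset.card_disjSum, card_fst]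
  congr 1
  split_ifs with h
  · rw [Finset.card_eq_one]
    refine ⟨⟨l, h⟩, ?_⟩
    ext k
    simp only [Finset.mem_filter, Finset.mem_univ, true_and, Finset.mem_singleton]
    constructor
    · rintro rfl
      ext
      simp
    · rintro rfl
      ext
      simp
  · rw [Finset.card_eq_zero, Finset.filter_eq_empty_iff]
    rintro k - rfl
    exact h (by simp)

theorem sum_ite_lt {n s : ℕ} (hs : s ≤ n) (m : ℕ) :
    ∑ l : Fin n, (if (l : ℕ) < s then m else 0) = m * s := by
  rw [Fin.sum_univ_eq_sum_range (fun l => if l < s then m else 0) n, ← Finset.sum_filter]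
  have : (Finset.range n).filter (fun l => l < s) = Finset.range s := by
    ext a
    simp only [Finset.mem_filter, Finset.mem_range]
    omega
  rw [this]
  simp [mul_comm]

/-- The trace is injective for general `B`. -/
theorem trace_gen_b {σ IA IB IC : Type} [DecidableEq σ] [Fintype σ] [Finite IA] [Finite IB]
    {n : ℕ} (o : σ) (D : Finset (σ →₀ ℕ)) (uA : IA → Fin n → ℂ) (a : IA → σ → ℂ)
    (β : IB → Fin n) (b0 : IB → σ → ℂ)
    (h : Z (HN n (lo o D)) (trf o uA a β fun k => Function.update (b0 k) o 0) = ⊥) :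
    Gen fun p : (IB ⊕ IC) × σ → ℂ => Z (HN n (lo o D)) (trf o uA a β (bp o p)) = ⊥ := by
  have hpol : ∀ r, ∀ F ∈ HN n (lo o D),
      IsPol fun p : (IB ⊕ IC) × σ → ℂ => trf o uA a β (bp o p) r F := by
    intro r F _
    exact isPol_trf (τ := (IB ⊕ IC) × σ) (uA := fun _ => uA) (a := fun _ => a) (β := β)
      (b := fun p => bp o p) o (fun k l => IsPol.const (uA k l)) (fun k i => IsPol.const (a k i))
        (fun k i => isPol_bp o k i) r F
  have h0 : finrank ℂ (Z (HN n (lo o D)) fun r => trf o uA a β (bp (IC := IC) o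
      fun x => Sum.elim (fun k => b0 k x.2) (fun _ => 0) x.1) r) ≤ 0 := by
    have e : Z (HN n (lo o D)) (fun r => trf o uA a β (bp (IC := IC) o
      fun x => Sum.elim (fun k => b0 k x.2) (fun _ => 0) x.1) r) = ⊥ := h
    rw [e, finrank_bot]
  have := semi_gen (HN n (lo o D)) (fun r (p : (IB ⊕ IC) × σ → ℂ) => trf o uA a β (bp o p) r)
    hpol _ 0 h0
  exact this.mono fun p hp => Submodule.finrank_eq_zero.1 (Nat.le_zero.1 hp)

/-- The parameters of `A`: the vectors `u`. -/
def up {σ IA : Type} {n : ℕ} (w : IA × (Fin n ⊕ σ) → ℂ) (k : IA) : Fin n → ℂ :=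
  fun l => w (k, Sum.inl l)

/-- The parameters of `A`: the points (on `T`). -/
def ap {σ IA : Type} [DecidableEq σ] {n : ℕ} (o : σ) (w : IA × (Fin n ⊕ σ) → ℂ) (k : IA) :
    σ → ℂ :=
  Function.update (fun i => w (k, Sum.inr i)) o 0

theorem isPol_up {σ IA : Type} {n : ℕ} (k : IA) (l : Fin n) :
    IsPol fun w : IA × (Fin n ⊕ σ) → ℂ => up w k l := IsPol.coord _

theorem isPol_ap {σ IA : Type} [DecidableEq σ] {n : ℕ} (o : σ) (k : IA) (i : σ) :
    IsPol fun w : IA × (Fin n ⊕ σ) → ℂ => ap o w k i := by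
  by_cases hi : i = o
  · subst hi
    simpa [ap] using IsPol.const 0
  · simpa [ap, hi] using IsPol.coord (k, Sum.inr i)

/-- The trace is injective for general `A`. -/
theorem trace_gen_a {σ IA IB : Type} [DecidableEq σ] [Fintype σ] [Finite IA] [Finite IB]
    {n : ℕ} (o : σ) (D : Finset (σ →₀ ℕ)) (uA : IA → Fin n → ℂ) (a : IA → σ → ℂ)
    (β : IB → Fin n) (b : IB → σ → ℂ)
    (h : Z (HN n (lo o D)) (trf o uA (fun k => Function.update (a k) o 0) β b) = ⊥) :
    Gen fun w : IA × (Fin n ⊕ σ) → ℂ =>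
      Z (HN n (lo o D)) (trf o (up w) (ap o w) β b) = ⊥ := by
  have hpol : ∀ r, ∀ F ∈ HN n (lo o D),
      IsPol fun w : IA × (Fin n ⊕ σ) → ℂ => trf o (up w) (ap o w) β b r F := by
    intro r F _
    exact isPol_trf (τ := IA × (Fin n ⊕ σ)) (uA := fun w => up w) (a := fun w => ap o w)
      (β := β) (b := fun _ => b) o (fun k l => isPol_up k l) (fun k i => isPol_ap o k i)
        (fun k i => IsPol.const (b k i)) r F
  have h0 : finrank ℂ (Z (HN n (lo o D)) fun r => trf o
      (up (fun z : IA × (Fin n ⊕ σ) => Sum.elim (uA z.1) (a z.1) z.2))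
      (ap o (fun z : IA × (Fin n ⊕ σ) => Sum.elim (uA z.1) (a z.1) z.2)) β b r) ≤ 0 := by
    have e : Z (HN n (lo o D)) (fun r => trf o
      (up (fun z : IA × (Fin n ⊕ σ) => Sum.elim (uA z.1) (a z.1) z.2))
      (ap o (fun z : IA × (Fin n ⊕ σ) => Sum.elim (uA z.1) (a z.1) z.2)) β b r) = ⊥ := h
    rw [e, finrank_bot]
  have := semi_gen (HN n (lo o D)) (fun r (w : IA × (Fin n ⊕ σ) → ℂ) =>
    trf o (up w) (ap o w) β b r) hpol _ 0 h0
  exact this.mono fun p hp => Submodule.finrank_eq_zero.1 (Nat.le_zero.1 hp)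

/-- The partial conditions in general position. -/
theorem part_gen {σ IA : Type} [DecidableEq σ] [Fintype IA] {n : ℕ} (o : σ)
    (R : Submodule ℂ (EN n σ)) [FiniteDimensional ℂ R] (δ : ℕ)
    (hR : finrank ℂ R ≤ δ + Fintype.card IA)
    (hT : ∀ F ∈ R, (∀ l (y : σ → ℂ), ev (Function.update y o 0) (F l) = 0) → F = 0) :
    Gen fun w : IA × (Fin n ⊕ σ) → ℂ =>
      finrank ℂ (Z R fun k => evu (up w k) (ap o w k)) ≤ δ := by
  classical
  obtain ⟨pc, hpc⟩ := cut (P := (Fin n → ℂ) × (σ → ℂ)) R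
    (fun w => evu w.1 (Function.update w.2 o 0)) (fun F hF hF0 => by
      by_contra hcon
      push Not at hcon
      apply hF0
      refine hT F hF fun l y => ?_
      have := hcon (eu l, y)
      rw [evu_apply, Finset.sum_eq_single l] at this
      · simpa [eu] using this
      · intro l' _ hl'
        simp [eu, hl']
      · simp) (Fintype.card IA)
  let e := Fintype.equivFin IA
  have hpol : ∀ (k : IA), ∀ F ∈ R,
      IsPol fun w : IA × (Fin n ⊕ σ) → ℂ => evu (up w k) (ap o w k) F := by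
    intro k F _
    exact isPol_evu (u := fun w : IA × (Fin n ⊕ σ) → ℂ => up w k)
      (y := fun w => ap o w k) F (fun l => isPol_up k l) (fun i => isPol_ap o k i)
  have h0 : finrank ℂ (Z R fun k => evu
      (up (fun z : IA × (Fin n ⊕ σ) => Sum.elim (pc (e z.1)).1 (pc (e z.1)).2 z.2) k)
      (ap o (fun z : IA × (Fin n ⊕ σ) => Sum.elim (pc (e z.1)).1 (pc (e z.1)).2 z.2) k)) ≤
      δ := by
    refine le_trans (Submodule.finrank_mono (Z_le_Z R _
      (fun k => evu (pc k).1 (Function.update (pc k).2 o 0)) fun F _ hF k => ?_))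
      (le_trans hpc (by omega))
    have h1 := hF (e.symm k)
    have h2 : up (fun z : IA × (Fin n ⊕ σ) => Sum.elim (pc (e z.1)).1 (pc (e z.1)).2 z.2)
        (e.symm k) = (pc k).1 := by
      funext l
      simp [up]
    have h3 : ap o (fun z : IA × (Fin n ⊕ σ) => Sum.elim (pc (e z.1)).1 (pc (e z.1)).2 z.2)
        (e.symm k) = Function.update (pc k).2 o 0 := by
      unfold ap
      congr 1
      funext i
      simp
    rw [h2, h3] at h1
    exact h1
  exact semi_gen R (fun k (w : IA × (Fin n ⊕ σ) → ℂ) => evu (up w k) (ap o w k)) hpol _ δ h0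

end Pool.Agent.SV.E
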