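import Pool.Agent.Lib.MP_b54217_ag.E.Pol

/-!
# Cutting a finite dimensional space by general functionals
-/

set_option autoImplicit false

namespace Pool.Agent.SV.E

open MvPolynomial Module

theorem Z_mono {E R : Type*} [AddCommGroup E] [Module ℂ E] {V W : Submodule ℂ E} (h : V ≤ W)
    (φ : R → E →ₗ[ℂ] ℂ) : Z V φ ≤ Z W φ := inf_le_inf_right _ h

/-- More functionals, smaller joint kernel. -/
theorem Z_le_Z {E R S : Type*} [AddCommGroup E] [Module ℂ E] (V : Submodule ℂ E)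
    (φ : R → E →ₗ[ℂ] ℂ) (ψ : S → E →ₗ[ℂ] ℂ)
    (h : ∀ v ∈ V, (∀ r, φ r v = 0) → ∀ s, ψ s v = 0) : Z V φ ≤ Z V ψ := by
  intro v hv
  rw [mem_Z] at hv ⊢
  exact ⟨hv.1, h v hv.1 hv.2⟩

/-- `e` functionals out of a separating family: each one cuts the dimension. -/
theorem cut {E P : Type*} [AddCommGroup E] [Module ℂ E] [Nonempty P] (V : Submodule ℂ E)
    [FiniteDimensional ℂ V] (φ : P → E →ₗ[ℂ] ℂ) (h : ∀ v ∈ V, v ≠ 0 → ∃ p, φ p v ≠ 0) (e : ℕ) :
    ∃ p : Fin e → P, finrank ℂ (Z V fun k => φ (p k)) ≤ finrank ℂ V - e := by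
  induction e with
  | zero =>
    refine ⟨fun k => k.elim0, ?_⟩
    simpa using Submodule.finrank_mono (Z_le V _)
  | succ e ih =>
    obtain ⟨p, hp⟩ := ih
    by_cases h0 : Z V (fun k => φ (p k)) = ⊥
    · obtain ⟨a⟩ := ‹Nonempty P›
      refine ⟨Fin.cons a p, ?_⟩
      have : Z V (fun k => φ ((Fin.cons a p : Fin (e + 1) → P) k)) ≤ ⊥ := by
        rw [← h0]
        refine Z_le_Z _ _ _ fun v _ hv k => ?_
        have := hv k.succ
        simpa using this
      rw [le_bot_iff.1 this]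
      simp
    · obtain ⟨v, hv, hv0⟩ := (Submodule.ne_bot_iff _).1 h0
      obtain ⟨a, ha⟩ := h v (Z_le _ _ hv) hv0
      refine ⟨Fin.cons a p, ?_⟩
      have hlt : Z V (fun k => φ ((Fin.cons a p : Fin (e + 1) → P) k)) <
          Z V (fun k => φ (p k)) := by
        refine lt_of_le_of_ne ?_ ?_
        · refine Z_le_Z _ _ _ fun v _ hv k => ?_
          have := hv k.succ
          simpa using this
        · intro he
          rw [← he, mem_Z] at hv
          have := hv.2 0
          simp at this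
          exact ha this
      have := Submodule.finrank_lt_finrank_of_lt hlt
      omega

/-- Independent functionals: if the functionals `φ` are independent on a subspace then they cut
every larger space in the same way. -/
theorem finrank_Z_add_le_of_le {E R : Type*} [AddCommGroup E] [Module ℂ E]
    {V W : Submodule ℂ E} [FiniteDimensional ℂ W] (h : V ≤ W) (φ : R → E →ₗ[ℂ] ℂ) {c : ℕ}
    (hc : finrank ℂ (Z V φ) + c ≤ finrank ℂ V) :
    finrank ℂ (Z W φ) + c ≤ finrank ℂ W := by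
  have : FiniteDimensional ℂ V := Submodule.finiteDimensional_of_le h
  have h1 : V ⊓ Z W φ = Z V φ := by
    ext v
    simp only [Submodule.mem_inf, mem_Z]
    constructor
    · rintro ⟨h1, -, h2⟩
      exact ⟨h1, h2⟩
    · rintro ⟨h1, h2⟩
      exact ⟨h1, h h1, h2⟩
  have h2 : finrank ℂ (V ⊔ Z W φ : Submodule ℂ E) + finrank ℂ (V ⊓ Z W φ : Submodule ℂ E) =
      finrank ℂ V + finrank ℂ (Z W φ) := Submodule.finrank_sup_add_finrank_inf_eq _ _
  have h3 : finrank ℂ (V ⊔ Z W φ : Submodule ℂ E) ≤ finrank ℂ W :=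
    Submodule.finrank_mono (sup_le h (Z_le _ _))
  rw [h1] at h2
  omega

/-- The trivial lower bound. -/
theorem le_finrank_Z {E R : Type*} [AddCommGroup E] [Module ℂ E] [Fintype R]
    (V : Submodule ℂ E) [FiniteDimensional ℂ V] (φ : R → E →ₗ[ℂ] ℂ) :
    finrank ℂ V ≤ finrank ℂ (Z V φ) + Fintype.card R := by
  let Φ : V →ₗ[ℂ] (R → ℂ) := LinearMap.pi fun r => (φ r).comp V.subtype
  have h1 := LinearMap.finrank_range_add_finrank_ker Φ
  have h2 : finrank ℂ (LinearMap.range Φ) ≤ Fintype.card R := by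
    simpa using Submodule.finrank_le (LinearMap.range Φ)
  have h3 : finrank ℂ (LinearMap.ker Φ) ≤ finrank ℂ (Z V φ) := by
    have hle : (LinearMap.ker Φ).map V.subtype ≤ Z V φ := by
      rintro v ⟨w, hw, rfl⟩
      rw [mem_Z]
      exact ⟨w.2, fun r => congrFun (LinearMap.mem_ker.1 hw) r⟩
    calc finrank ℂ (LinearMap.ker Φ) = finrank ℂ ((LinearMap.ker Φ).map V.subtype) :=
          (Submodule.equivMapOfInjective _ V.injective_subtype _).finrank_eq
      _ ≤ _ := Submodule.finrank_mono hle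
  omega

/-- The functionals at the points `y k`, `k ∈ I`: the value everywhere, and the derivatives in the
directions of `J` at the points of `B`. -/
noncomputable def rowf {σ I : Type} (J : Finset σ) (B : Finset I) (y : I → σ → ℂ) :
    I ⊕ (B × J) → (MvPolynomial σ ℂ →ₗ[ℂ] ℂ)
  | Sum.inl k => ev (y k)
  | Sum.inr r => dv r.2.1 (y r.1.1)

theorem mem_Z_rowf {σ I : Type} {J : Finset σ} {B : Finset I}
    {y : I → σ → ℂ} {V : Submodule ℂ (MvPolynomial σ ℂ)} {f : MvPolynomial σ ℂ} :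
    f ∈ Z V (rowf J B y) ↔ f ∈ V ∧ (∀ k, ev (y k) f = 0) ∧
      ∀ k ∈ B, ∀ j ∈ J, dv j (y k) f = 0 := by
  rw [mem_Z]
  constructor
  · rintro ⟨h1, h2⟩
    exact ⟨h1, fun k => h2 (Sum.inl k), fun k hk j hj => h2 (Sum.inr (⟨k, hk⟩, ⟨j, hj⟩))⟩
  · rintro ⟨h1, h2, h3⟩
    refine ⟨h1, ?_⟩
    rintro (k | ⟨⟨k, hk⟩, ⟨j, hj⟩⟩)
    · exact h2 k
    · exact h3 k hk j hj

/-- The functionals `rowf` depend polynomially on the points. -/
theorem isPol_rowf {σ I τ : Type} (J : Finset σ) (B : Finset I)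
    {y : (τ → ℂ) → I → σ → ℂ} (hy : ∀ k i, IsPol fun p => y p k i) (r : I ⊕ (B × J))
    (f : MvPolynomial σ ℂ) : IsPol fun p => rowf J B (y p) r f := by
  rcases r with k | r
  · exact IsPol.ev f (hy k)
  · exact IsPol.dv r.2.1 f (hy r.1.1)

theorem exists_ev_ne {σ : Type} {f : MvPolynomial σ ℂ} (hf : f ≠ 0) : ∃ y : σ → ℂ, ev y f ≠ 0 := by
  by_contra hcon
  push Not at hcon
  exact hf (MvPolynomial.funext fun y => by rw [← ev_apply, hcon y, map_zero])

end Pool.Agent.SV.E
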