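import Mathlib

/-!
# THEOREM G, part E.  Basic definitions

Variables: any type `σ`.  `H A`: polynomials with support in the finite set `A` of exponents.
`Z V φ`: the elements of `V` which are killed by all functionals `φ r`.
-/

set_option autoImplicit false

namespace Pool.Agent.SV.E

open MvPolynomial

/-- Polynomials with support in `A`. -/
noncomputable def H {σ : Type} (A : Finset (σ →₀ ℕ)) : Submodule ℂ (MvPolynomial σ ℂ) :=
  MvPolynomial.restrictSupport ℂ (A : Set (σ →₀ ℕ))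

/-- The joint kernel of the functionals `φ r` in `V`. -/
def Z {E R : Type*} [AddCommGroup E] [Module ℂ E] (V : Submodule ℂ E) (φ : R → E →ₗ[ℂ] ℂ) :
    Submodule ℂ E :=
  V ⊓ ⨅ r, LinearMap.ker (φ r)

/-- `A'_j`: the exponents `a` in `A` with `a + e_j` in `A`. -/
noncomputable def sh {σ : Type} (j : σ) (A : Finset (σ →₀ ℕ)) : Finset (σ →₀ ℕ) := by
  classical exact A.filter fun a => a + Finsupp.single j 1 ∈ A

/-- The value at `y`. -/
noncomputable def ev {σ : Type} (y : σ → ℂ) : MvPolynomial σ ℂ →ₗ[ℂ] ℂ :=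
  (MvPolynomial.aeval y : MvPolynomial σ ℂ →ₐ[ℂ] ℂ).toLinearMap

/-- The partial derivative `∂_i` at `y`. -/
noncomputable def dv {σ : Type} (i : σ) (y : σ → ℂ) : MvPolynomial σ ℂ →ₗ[ℂ] ℂ :=
  (ev y).comp (pderiv i).toLinearMap

/-- Functions of the parameters `p : τ → ℂ` which are given by a polynomial. -/
def IsPol {τ : Type} (g : (τ → ℂ) → ℂ) : Prop :=
  ∃ P : MvPolynomial τ ℂ, ∀ p, g p = MvPolynomial.eval p P

/-- `Q` holds outside the zero set of a nonzero polynomial function. -/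
def Gen {τ : Type} (Q : (τ → ℂ) → Prop) : Prop :=
  ∃ g : (τ → ℂ) → ℂ, IsPol g ∧ (∃ p, g p ≠ 0) ∧ ∀ p, g p ≠ 0 → Q p

theorem mem_H {σ : Type} {A : Finset (σ →₀ ℕ)} {f : MvPolynomial σ ℂ} :
    f ∈ H A ↔ f.support ⊆ A := by
  unfold H
  rw [MvPolynomial.mem_restrictSupport_iff]
  exact Finset.coe_subset

theorem mem_H' {σ : Type} {A : Finset (σ →₀ ℕ)} {f : MvPolynomial σ ℂ} :
    f ∈ H A ↔ ∀ a, a ∉ A → f.coeff a = 0 := by
  rw [mem_H]
  constructor
  · intro h a ha
    by_contra hc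
    exact ha (h (MvPolynomial.mem_support_iff.2 hc))
  · intro h a ha
    by_contra hc
    exact MvPolynomial.mem_support_iff.1 ha (h a hc)

instance {σ : Type} (A : Finset (σ →₀ ℕ)) : FiniteDimensional ℂ (H A) :=
  Module.Finite.of_basis (MvPolynomial.basisRestrictSupport ℂ (A : Set (σ →₀ ℕ)))

theorem finrank_H {σ : Type} (A : Finset (σ →₀ ℕ)) : Module.finrank ℂ (H A) = A.card := by
  unfold H
  rw [Module.finrank_eq_nat_card_basis
    (MvPolynomial.basisRestrictSupport ℂ (A : Set (σ →₀ ℕ)))]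
  simp

theorem mem_Z {E R : Type*} [AddCommGroup E] [Module ℂ E] {V : Submodule ℂ E}
    {φ : R → E →ₗ[ℂ] ℂ} {v : E} : v ∈ Z V φ ↔ v ∈ V ∧ ∀ r, φ r v = 0 := by
  simp [Z]

theorem Z_le {E R : Type*} [AddCommGroup E] [Module ℂ E] (V : Submodule ℂ E)
    (φ : R → E →ₗ[ℂ] ℂ) : Z V φ ≤ V := inf_le_left

instance {E R : Type*} [AddCommGroup E] [Module ℂ E] (V : Submodule ℂ E)
    [FiniteDimensional ℂ V] (φ : R → E →ₗ[ℂ] ℂ) : FiniteDimensional ℂ (Z V φ) :=
  Submodule.finiteDimensional_of_le (Z_le V φ)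

theorem ev_apply {σ : Type} (y : σ → ℂ) (f : MvPolynomial σ ℂ) : ev y f = eval y f := by
  simp only [ev, AlgHom.toLinearMap_apply]
  rw [MvPolynomial.aeval_def, MvPolynomial.eval, MvPolynomial.coe_eval₂Hom]
  rfl

theorem dv_apply {σ : Type} (i : σ) (y : σ → ℂ) (f : MvPolynomial σ ℂ) :
    dv i y f = eval y (pderiv i f) := by
  simp only [dv, LinearMap.comp_apply]
  rw [ev_apply]
  rfl

end Pool.Agent.SV.E
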