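import Pool.Agent.Lib.MP_b54217_ag.E.Cut

/-!
# The jets lemma: a general double point imposes independent conditions on every large subspace
-/

set_option autoImplicit false

namespace Pool.Agent.SV.E

open MvPolynomial Module

/-- If the functionals take arbitrary values on `V` then they cut the dimension as expected. -/
theorem finrank_Z_of_surj {E R : Type*} [AddCommGroup E] [Module ℂ E] [Fintype R]
    (V : Submodule ℂ E) [FiniteDimensional ℂ V] (φ : R → E →ₗ[ℂ] ℂ)
    (h : ∀ c : R → ℂ, ∃ v ∈ V, ∀ r, φ r v = c r) :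
    finrank ℂ (Z V φ) + Fintype.card R ≤ finrank ℂ V := by
  let Φ : V →ₗ[ℂ] (R → ℂ) := LinearMap.pi fun r => (φ r).comp V.subtype
  have hs : LinearMap.range Φ = ⊤ := by
    rw [LinearMap.range_eq_top]
    intro c
    obtain ⟨v, hv, hc⟩ := h c
    exact ⟨⟨v, hv⟩, funext hc⟩
  have h1 := LinearMap.finrank_range_add_finrank_ker Φ
  rw [hs, finrank_top, finrank_fintype_fun_eq_card] at h1
  have h3 : finrank ℂ (Z V φ) ≤ finrank ℂ (LinearMap.ker Φ) := by
    have hle : Z V φ ≤ (LinearMap.ker Φ).map V.subtype := by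
      intro v hv
      rw [mem_Z] at hv
      exact ⟨⟨v, hv.1⟩, LinearMap.mem_ker.2 (funext hv.2), rfl⟩
    calc finrank ℂ (Z V φ) ≤ finrank ℂ ((LinearMap.ker Φ).map V.subtype) :=
          Submodule.finrank_mono hle
      _ = _ := (Submodule.equivMapOfInjective _ V.injective_subtype _).finrank_eq.symm
  omega

section subst

variable {σ : Type} [DecidableEq σ]

/-- The substitution `x_j ↦ κ`. -/
noncomputable def th (j : σ) (κ : ℂ) : MvPolynomial σ ℂ →ₐ[ℂ] MvPolynomial σ ℂ :=
  aeval fun i => if i = j then C κ else X i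

theorem dvd_sub_th (j : σ) (κ : ℂ) (f : MvPolynomial σ ℂ) :
    (X j - C κ : MvPolynomial σ ℂ) ∣ f - th j κ f := by
  induction f using MvPolynomial.induction_on with
  | C a => simp [th]
  | add f g hf hg =>
    rw [map_add, add_sub_add_comm]
    exact dvd_add hf hg
  | mul_X f i hf =>
    rw [map_mul]
    have : f * X i - th j κ f * th j κ (X i) =
        (f - th j κ f) * X i + th j κ f * (X i - th j κ (X i)) := by ring
    rw [this]
    refine dvd_add (Dvd.dvd.mul_right hf _) (Dvd.dvd.mul_left ?_ _)
    by_cases h : i = j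
    · subst h
      simp [th]
    · simp [th, h]

theorem th_q (j : σ) (κ : ℂ) : th j κ (X j - C κ) = 0 := by simp [th]

theorem dvd_iff_th (j : σ) (κ : ℂ) (f : MvPolynomial σ ℂ) :
    (X j - C κ : MvPolynomial σ ℂ) ∣ f ↔ th j κ f = 0 := by
  constructor
  · rintro ⟨g, rfl⟩
    rw [map_mul, th_q, zero_mul]
  · intro h
    have := dvd_sub_th j κ f
    rwa [h, sub_zero] at this

omit [DecidableEq σ] in
theorem q_ne_zero (j : σ) (κ : ℂ) : (X j - C κ : MvPolynomial σ ℂ) ≠ 0 := by
  intro h
  have := congrArg (MvPolynomial.eval fun _ => κ + 1) h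
  simp at this

theorem prime_q (j : σ) (κ : ℂ) : Prime (X j - C κ : MvPolynomial σ ℂ) := by
  refine ⟨q_ne_zero j κ, ?_, ?_⟩
  · intro hu
    have := hu.map (th j κ)
    rw [th_q] at this
    exact not_isUnit_zero this
  · intro a b hab
    rw [dvd_iff_th, map_mul] at hab
    rw [dvd_iff_th, dvd_iff_th]
    exact mul_eq_zero.1 hab

/-- The heart of the jets lemma. -/
theorem eq_zero_of_rel {J : Finset σ} {w0 : MvPolynomial σ ℂ} {w : σ → MvPolynomial σ ℂ} {j : σ}
    (hj : j ∈ J) {κ : ℂ} (hw : ¬ (X j - C κ : MvPolynomial σ ℂ) ∣ w j) {f : MvPolynomial σ ℂ}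
    (hrel : w0 * f + ∑ i ∈ J, w i * pderiv i f = 0)
    (hd : (X j - C κ : MvPolynomial σ ℂ) ∣ f) : f = 0 := by
  by_contra hf
  obtain ⟨k, h, hnd, rfl⟩ := WfDvdMonoid.max_power_factor hf (prime_q j κ).irreducible
  obtain _ | n := k
  · rw [pow_zero, one_mul] at hd
    exact hnd hd
  set q : MvPolynomial σ ℂ := X j - C κ with hq
  have hpd : ∀ i, pderiv i (q ^ (n + 1) * h) =
      q ^ n * (q * pderiv i h + (if i = j then ((n : MvPolynomial σ ℂ) + 1) * h else 0)) := by
    intro i
    have h1 : pderiv i q = if i = j then 1 else 0 := by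
      rw [hq, map_sub, pderiv_C, sub_zero, pderiv_X]
      simp [Pi.single_apply, eq_comm]
    rw [Derivation.leibniz, Derivation.leibniz_pow, h1]
    simp only [smul_eq_mul, nsmul_eq_mul, Nat.cast_add, Nat.cast_one, Nat.add_sub_cancel]
    split_ifs
    · ring
    · ring
  have hsum : ∑ i ∈ J, w i * pderiv i (q ^ (n + 1) * h) =
      q ^ n * (q * ∑ i ∈ J, w i * pderiv i h + w j * (((n : MvPolynomial σ ℂ) + 1) * h)) := by
    have : ∀ i ∈ J, w i * pderiv i (q ^ (n + 1) * h) =
        q ^ n * (q * (w i * pderiv i h)) +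
          q ^ n * (if i = j then w j * (((n : MvPolynomial σ ℂ) + 1) * h) else 0) := by
      intro i _
      rw [hpd]
      split_ifs with hij
      · subst hij
        ring
      · ring
    rw [Finset.sum_congr rfl this, Finset.sum_add_distrib, ← Finset.mul_sum, ← Finset.mul_sum,
      ← Finset.mul_sum, Finset.sum_ite_eq' J j, if_pos hj]
    ring
  rw [hsum] at hrel
  have h2 : q ^ n * (q * (w0 * h + ∑ i ∈ J, w i * pderiv i h) +
      w j * (((n : MvPolynomial σ ℂ) + 1) * h)) = 0 := by
    rw [← hrel]
    ring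
  have h3 := (mul_eq_zero.1 h2).resolve_left (pow_ne_zero n (q_ne_zero j κ))
  have h4 : q ∣ w j * (((n : MvPolynomial σ ℂ) + 1) * h) := by
    have h5 : w j * (((n : MvPolynomial σ ℂ) + 1) * h) =
        q * -(w0 * h + ∑ i ∈ J, w i * pderiv i h) := by
      rw [mul_neg]
      exact eq_neg_of_add_eq_zero_right h3
    exact ⟨_, h5⟩
  rcases (prime_q j κ).dvd_or_dvd h4 with h5 | h5
  · exact hw h5
  rcases (prime_q j κ).dvd_or_dvd h5 with h6 | h6
  · rw [dvd_iff_th, map_add, map_natCast, map_one] at h6
    exact Nat.cast_add_one_ne_zero n h6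
  · exact hnd h6

end subst

/-- A matrix over a domain with independent rows has a right inverse up to a denominator. -/
theorem exists_right_inv {A : Type*} [CommRing A] [IsDomain A] {ι κ : Type*} [Fintype ι]
    [DecidableEq ι] [Fintype κ] [DecidableEq κ] (M : Matrix ι κ A)
    (hM : LinearIndependent A fun i => M i) :
    ∃ (B : Matrix κ ι A) (d : A), d ≠ 0 ∧ M * B = d • (1 : Matrix ι ι A) := by
  classical
  let K := FractionRing A
  let g : A →+* K := algebraMap A K
  have hg : Function.Injective g := IsFractionRing.injective A K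
  have h1 : LinearIndependent A fun i => (fun k => g (M i k) : κ → K) := by
    let L : (κ → A) →ₗ[A] (κ → K) :=
      LinearMap.pi fun k => (Algebra.linearMap A K).comp (LinearMap.proj k)
    have hL : Function.Injective L := fun a b hab => funext fun k => hg (congrFun hab k)
    exact hM.map' L (LinearMap.ker_eq_bot.2 hL)
  have h2 : LinearIndependent K fun i => (fun k => g (M i k) : κ → K) :=
    (LinearIndependent.iff_fractionRing A K).1 h1
  have h3 : (M.map g).rank = Fintype.card ι := LinearIndependent.rank_matrix h2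
  have h4 : Function.Surjective (M.map g).mulVec := by
    have : LinearMap.range (M.map g).mulVecLin = ⊤ := by
      apply Submodule.eq_top_of_finrank_eq
      rw [finrank_fintype_fun_eq_card]
      exact h3
    exact LinearMap.range_eq_top.1 this
  obtain ⟨B, hB⟩ := Matrix.mulVec_surjective_iff_exists_right_inverse.1 h4
  obtain ⟨b, hb⟩ := IsLocalization.exist_integer_multiples_of_finite (nonZeroDivisors A)
    fun x : κ × ι => B x.1 x.2
  choose B' hB' using fun x => hb x
  refine ⟨fun k i => B' (k, i), b, nonZeroDivisors.ne_zero b.2, ?_⟩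
  ext i j
  apply hg
  have h5 : ∀ k, g (B' (k, j)) = g b * B k j := by
    intro k
    have := hB' (k, j)
    rw [Algebra.smul_def] at this
    exact this
  rw [Matrix.mul_apply, map_sum]
  have h6 : ∑ k, g (M i k * B' (k, j)) = g b * ((M.map g) * B) i j := by
    rw [Matrix.mul_apply, Finset.mul_sum]
    refine Finset.sum_congr rfl fun k _ => ?_
    rw [map_mul, h5, Matrix.map_apply]
    ring
  rw [h6, hB, Matrix.smul_apply, smul_eq_mul, map_mul]
  congr 1
  by_cases hij : i = j
  · subst hij
    simp
  · simp [hij]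

theorem mem_sh {σ : Type} {A : Finset (σ →₀ ℕ)} {j : σ} {a : σ →₀ ℕ} :
    a ∈ sh j A ↔ a ∈ A ∧ a + Finsupp.single j 1 ∈ A := by
  classical
  exact Finset.mem_filter

theorem sh_card_le {σ : Type} (A : Finset (σ →₀ ℕ)) (j : σ) : (sh j A).card ≤ A.card :=
  Finset.card_le_card fun _ ha => (mem_sh.1 ha).1

/-- Multiplication by `x_j - κ` maps `H (sh j A)` into `H A`. -/
theorem mul_q_mem {σ : Type} {A : Finset (σ →₀ ℕ)} {j : σ} (κ : ℂ) {f : MvPolynomial σ ℂ}
    (hf : f ∈ H (sh j A)) : (X j - C κ) * f ∈ H A := by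
  classical
  rw [mem_H'] at hf ⊢
  intro a ha
  rw [sub_mul, coeff_sub, coeff_C_mul, coeff_X_mul', sub_eq_zero]
  have h1 : coeff a f = 0 := hf a fun h => ha (mem_sh.1 h).1
  rw [h1, mul_zero]
  split_ifs with h
  · refine hf _ fun h' => ha ?_
    have h2 := (mem_sh.1 h').2
    rwa [tsub_add_cancel_of_le] at h2
    rw [Finsupp.single_le_iff]
    exact Nat.one_le_iff_ne_zero.2 (Finsupp.mem_support_iff.1 h)
  · rfl

/-- THE JETS LEMMA. -/
theorem jets {σ : Type} [DecidableEq σ] (A : Finset (σ →₀ ℕ)) (J : Finset σ) (hJ : J.Nonempty)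
    (L : Submodule ℂ (MvPolynomial σ ℂ)) (hL : L ≤ H A)
    (hdim : ∀ j ∈ J, A.card < finrank ℂ L + (sh j A).card) :
    ∃ y : σ → ℂ, ∀ c : Option J → ℂ, ∃ f ∈ L, ev y f = c none ∧
      ∀ j : J, dv j.1 y f = c (some j) := by
  classical
  have hfd : FiniteDimensional ℂ L := Submodule.finiteDimensional_of_le hL
  let b := Module.finBasis ℂ L
  let v : Option J → Fin (finrank ℂ L) → MvPolynomial σ ℂ := fun i k =>
    match i with
    | none => (b k : MvPolynomial σ ℂ)
    | some j => pderiv j.1 (b k : MvPolynomial σ ℂ)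
  by_cases hv : LinearIndependent (MvPolynomial σ ℂ) v
  · obtain ⟨B, d, hd, hB⟩ := exists_right_inv (v : Matrix _ _ _) hv
    obtain ⟨y, hy⟩ := exists_ev_ne hd
    rw [ev_apply] at hy
    refine ⟨y, fun c => ?_⟩
    have key : ∀ i i', ∑ k, eval y (v i k) * eval y (B k i') =
        eval y d * if i = i' then 1 else 0 := by
      intro i i'
      have := congrArg (eval y) (congrFun (congrFun hB i) i')
      rw [Matrix.mul_apply, map_sum] at this
      simp only [map_mul] at this
      rw [this, Matrix.smul_apply, smul_eq_mul, map_mul, Matrix.one_apply]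
      split_ifs <;> simp
    let f : L := ∑ i', (c i' / eval y d) • ∑ k, eval y (B k i') • b k
    have hf : ∀ (φ : MvPolynomial σ ℂ →ₗ[ℂ] ℂ) (i : Option J),
        (∀ k, φ (b k) = eval y (v i k)) → φ f = c i := by
      intro φ i hφ
      have h1 : (f : MvPolynomial σ ℂ) =
          ∑ i', (c i' / eval y d) • ∑ k, eval y (B k i') • (b k : MvPolynomial σ ℂ) := by
        simp [f]
      rw [h1, map_sum]
      have h2 : ∀ i', φ ((c i' / eval y d) • ∑ k, eval y (B k i') • (b k : MvPolynomial σ ℂ)) =
          if i = i' then c i' else 0 := by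
        intro i'
        rw [map_smul, map_sum]
        have h3 : ∑ k, φ (eval y (B k i') • (b k : MvPolynomial σ ℂ)) =
            ∑ k, eval y (v i k) * eval y (B k i') := by
          refine Finset.sum_congr rfl fun k _ => ?_
          rw [map_smul, hφ, smul_eq_mul, mul_comm]
        rw [h3, key, smul_eq_mul]
        split_ifs
        · field_simp
        · simp
      rw [Finset.sum_congr rfl fun i' _ => h2 i']
      simp
    refine ⟨f, f.2, ?_, fun j => ?_⟩
    · exact hf (ev y) none fun k => ev_apply _ _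
    · exact hf (dv j.1 y) (some j) fun k => dv_apply _ _ _
  · exfalso
    obtain ⟨g, hg, i0, hi0⟩ := Fintype.not_linearIndependent_iff.1 hv
    let w : σ → MvPolynomial σ ℂ := fun i => if h : i ∈ J then g (some ⟨i, h⟩) else 0
    have hrel : ∀ f ∈ L, g none * f + ∑ i ∈ J, w i * pderiv i f = 0 := by
      intro f hf
      have h1 : ∀ k, g none * (b k : MvPolynomial σ ℂ) +
          ∑ i ∈ J, w i * pderiv i (b k : MvPolynomial σ ℂ) = 0 := by
        intro k
        have := congrFun hg k
        rw [Finset.sum_apply, Fintype.sum_option] at this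
        simp only [Pi.smul_apply, smul_eq_mul, Pi.zero_apply, v] at this
        rw [← this]
        congr 1
        rw [← Finset.sum_coe_sort J]
        refine Finset.sum_congr rfl fun j _ => ?_
        simp [w]
      have h2 : f = ∑ k, (b.repr ⟨f, hf⟩ k) • (b k : MvPolynomial σ ℂ) := by
        have := congrArg Subtype.val (b.sum_repr ⟨f, hf⟩)
        rw [AddSubmonoidClass.coe_finsetSum] at this
        exact this.symm
      rw [h2]
      simp only [map_sum, Finset.mul_sum, Derivation.map_smul, mul_smul_comm]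
      rw [Finset.sum_comm, ← Finset.sum_add_distrib]
      refine Finset.sum_eq_zero fun k _ => ?_
      rw [← Finset.smul_sum, ← smul_add, h1, smul_zero]
    -- some `w j` is nonzero
    obtain ⟨j, hj, hwj⟩ : ∃ j ∈ J, w j ≠ 0 := by
      by_contra hcon
      push Not at hcon
      have h0 : g none ≠ 0 := by
        rcases i0 with _ | j
        · exact hi0
        · exfalso
          apply hi0
          have := hcon j.1 j.2
          simpa [w] using this
      obtain ⟨j, hj⟩ := hJ
      have hL0 : L = ⊥ := by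
        rw [eq_bot_iff]
        intro f hf
        have h1 := hrel f hf
        rw [Finset.sum_eq_zero fun i hi => by rw [hcon i hi, zero_mul], add_zero] at h1
        exact (mul_eq_zero.1 h1).resolve_left h0
      have := hdim j hj
      rw [hL0, finrank_bot] at this
      have h2 : (sh j A).card ≤ A.card := sh_card_le A j
      omega
    obtain ⟨y, hy⟩ := exists_ev_ne hwj
    rw [ev_apply] at hy
    have hnd : ¬ (X j - C (y j) : MvPolynomial σ ℂ) ∣ w j := by
      rintro ⟨u, hu⟩
      apply hy
      rw [hu]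
      simp
    -- the multiples of `x_j - κ`
    let μ : MvPolynomial σ ℂ →ₗ[ℂ] MvPolynomial σ ℂ :=
      LinearMap.mulLeft ℂ (X j - C (y j) : MvPolynomial σ ℂ)
    have hμ : Function.Injective μ := by
      intro f g hfg
      exact mul_left_cancel₀ (q_ne_zero j (y j)) hfg
    have hS : (H (sh j A)).map μ ≤ H A := by
      rintro _ ⟨f, hf, rfl⟩
      exact mul_q_mem _ hf
    have hfin : finrank ℂ ((H (sh j A)).map μ) = (sh j A).card := by
      rw [← finrank_H]
      exact (Submodule.equivMapOfInjective μ hμ _).finrank_eq.symm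
    have hinf : L ⊓ (H (sh j A)).map μ = ⊥ := by
      rw [eq_bot_iff]
      rintro f ⟨hf, u, -, hu⟩
      exact eq_zero_of_rel hj hnd (hrel f hf) ⟨u, hu.symm⟩
    have h1 : finrank ℂ (L ⊔ (H (sh j A)).map μ : Submodule ℂ (MvPolynomial σ ℂ)) +
        finrank ℂ (L ⊓ (H (sh j A)).map μ : Submodule ℂ (MvPolynomial σ ℂ)) =
        finrank ℂ L + finrank ℂ ((H (sh j A)).map μ) := by
      have : FiniteDimensional ℂ ((H (sh j A)).map μ) := Submodule.finiteDimensional_of_le hS
      exact Submodule.finrank_sup_add_finrank_inf_eq _ _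
    have h2 : finrank ℂ (L ⊔ (H (sh j A)).map μ : Submodule ℂ (MvPolynomial σ ℂ)) ≤ A.card := by
      rw [← finrank_H A]
      exact Submodule.finrank_mono (sup_le hL hS)
    rw [hinf, finrank_bot, add_zero, hfin] at h1
    have := hdim j hj
    omega

end Pool.Agent.SV.E
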