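import Pool.Agent.Lib.MP_b54217_ag.E.GenN

/-!
# Theorem NLE: `r = n (q' + x + ρ) + s` full points with the expected number of solutions
-/

set_option autoImplicit false

namespace Pool.Agent.SV.E

open MvPolynomial Module

/-- The residual conditions at `B` and `C`. -/
noncomputable def resR {σ IB IC : Type} {n : ℕ} (o : σ) (β : IB → Fin n) (b : IB → σ → ℂ)
    (uC : IC → Fin n → ℂ) (c : IC → σ → ℂ) :
    (IB × (Fin n ⊕ {i : σ // i ≠ o})) ⊕ (IC × (Fin n ⊕ σ)) → (EN n σ →ₗ[ℂ] ℂ) :=
  fun r => resf (IA := Empty) o (fun k => k.elim) (fun k => k.elim) β b uC c (Sum.inr r)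

section resR

variable {σ IB IC : Type} {n : ℕ} {o : σ} {β : IB → Fin n} {b : IB → σ → ℂ}
    {γ : IC → Fin n} {c : IC → σ → ℂ} {V : Submodule ℂ (EN n σ)}

theorem mem_Z_resR {F : EN n σ} (hF : F ∈ Z V (resR o β b (fun k => eu (γ k)) c)) :
    F ∈ V ∧ (∀ k l, ev (b k) (F l) = 0) ∧
      (∀ k i, i ≠ o → dv i (b k) (F (β k)) = 0) ∧ (∀ k l, ev (c k) (F l) = 0) ∧
      (∀ k i, dv i (c k) (F (γ k)) = 0) := by
  rw [mem_Z] at hF
  obtain ⟨h1, h2⟩ := hF
  refine ⟨h1, fun k l => h2 (Sum.inl (k, Sum.inl l)), fun k i hi => ?_,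
    fun k l => h2 (Sum.inr (k, Sum.inl l)), fun k i => ?_⟩
  · rw [← dvN_eu]
    exact h2 (Sum.inl (k, Sum.inr ⟨i, hi⟩))
  · rw [← dvN_eu]
    exact h2 (Sum.inr (k, Sum.inr i))

end resR

/-- The residual space is contained in the product of its rows. -/
theorem finrank_resR {σ IB IC : Type} [DecidableEq σ] [Fintype σ] [Fintype IB] [Fintype IC]
    {n : ℕ} (o : σ) (D1 : Finset (σ →₀ ℕ)) (β : IB → Fin n) (b : IB → σ → ℂ) (γ : IC → Fin n)
    (c : IC → σ → ℂ) (δ : Fin n → ℕ)
    (hp1 : ∀ l, finrank ℂ (Z (Z (H D1)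
      (rowf (J0 o) (Finset.univ.filter fun k => β k = l) b))
        (rowf Finset.univ (Finset.univ.filter fun k => γ k = l) c)) ≤ δ l) :
    finrank ℂ (Z (HN n D1) (resR o β b (fun k => eu (γ k)) c)) ≤ ∑ l, δ l := by
  classical
  let W : Fin n → Submodule ℂ (MvPolynomial σ ℂ) := fun l =>
    Z (Z (H D1) (rowf (J0 o) (Finset.univ.filter fun k => β k = l) b))
      (rowf Finset.univ (Finset.univ.filter fun k => γ k = l) c)
  have hle : Z (HN n D1) (resR o β b (fun k => eu (γ k)) c) ≤ Submodule.pi Set.univ W := by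
    intro F hF
    obtain ⟨h1, h2, h3, h4, h5⟩ := mem_Z_resR hF
    rw [Submodule.mem_pi]
    intro l _
    change F l ∈ Z (Z _ _) _
    rw [mem_Z_rowf, mem_Z_rowf]
    refine ⟨⟨mem_HN.1 h1 l, fun k => h2 k l, fun k hk j hj => ?_⟩, fun k => h4 k l,
      fun k hk j _ => ?_⟩
    · rw [← (Finset.mem_filter.1 hk).2]
      exact h3 k j (mem_J0.1 hj)
    · rw [← (Finset.mem_filter.1 hk).2]
      exact h5 k j
  have hfin := finrank_pi W
  have : FiniteDimensional ℂ (Submodule.pi Set.univ W : Submodule ℂ (EN n σ)) := hfin.1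
  have h1 := Submodule.finrank_mono hle
  rw [hfin.2] at h1
  exact h1.trans (Finset.sum_le_sum fun l _ => hp1 l)

/-- No residual solution vanishes on `T`. -/
theorem resR_T {σ IB IC : Type} [DecidableEq σ] [Fintype σ]
    {n : ℕ} (o : σ) (D1 : Finset (σ →₀ ℕ)) (β : IB → Fin n) (b : IB → σ → ℂ) (γ : IC → Fin n)
    (c : IC → σ → ℂ) (hco : ∀ k, c k o ≠ 0) (B' : Fin n → Finset IC)
    (hB' : ∀ l, ∀ k ∈ B' l, γ k = l)
    (hp2 : ∀ l, Z (H (dw o D1)) (rowf Finset.univ (B' l) c) = ⊥)
    (F : EN n σ) (hF : F ∈ Z (HN n D1) (resR o β b (fun k => eu (γ k)) c))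
    (h6 : ∀ l (y : σ → ℂ), ev (Function.update y o 0) (F l) = 0) : F = 0 := by
  classical
  obtain ⟨h1, h2, h3, h4, h5⟩ := mem_Z_resR hF
  rw [mem_HN] at h1
  funext l
  obtain ⟨G, hG, F'', hF'', hFG⟩ := exists_decomp o (h1 l)
  have hG0 : G = 0 := by
    by_contra hG0
    obtain ⟨y, hy⟩ := exists_ev_ne hG0
    apply hy
    have := h6 l y
    rw [hFG, map_add, ev_Xmul, Function.update_self, zero_mul, add_zero, ev_update hG] at this
    exact this
  rw [hG0, zero_add] at hFG
  have h7 : F'' ∈ Z (H (dw o D1)) (rowf Finset.univ (B' l) c) := by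
    have hev : ∀ k, ev (c k) F'' = 0 := by
      intro k
      have := h4 k l
      rw [hFG, ev_Xmul] at this
      exact (mul_eq_zero.1 this).resolve_left (hco k)
    rw [mem_Z_rowf]
    refine ⟨hF'', hev, fun k hk j _ => ?_⟩
    have hk' := hB' l k hk
    have := h5 k j
    rw [hk', hFG, dv_Xmul, hev k, ite_self, zero_add] at this
    exact (mul_eq_zero.1 this).resolve_left (hco k)
  rw [hp2 l, Submodule.mem_bot] at h7
  rw [hFG, h7, mul_zero]
  rfl

theorem nle {σ : Type} [DecidableEq σ] [Fintype σ] (o : σ) (D : Finset (σ →₀ ℕ))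
    (n m k0 x ρ q' s t h : ℕ) (hm : Fintype.card σ = m) (hk : (J0 o).card = k0)
    (hk0 : 0 < k0) (hs : s ≤ n)
    (ha : (lo o D).card = (n + k0) * x + ρ)
    (hb : ∀ j ∈ J0 o, (k0 + 1) * x ≤ (sh j (lo o D)).card)
    (hc : ∀ j ∈ J0 o, (k0 + 1) * ρ ≤ (sh j (lo o (dw o D))).card)
    (hc' : (n + k0) * ρ ≤ (lo o (dw o D)).card)
    (hd : ∀ j, (m + 1) * (q' + 1) + (n + k0) * ρ ≤ (sh j (dw o D)).card)
    (he : h ≤ q')
    (he1 : ∀ j, (m + 1) * h ≤ (sh j (dw o (dw o D))).card)
    (he2 : (dw o (dw o D)).card ≤ m * h + (n * q' + s))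
    (hf : s = 0 ∨ m ≤ x + t)
    (hg : D.card = (n + m) * (q' + x + ρ) + s + t) :
    ∃ (u : Fin (n * (q' + x + ρ) + s) → Fin n → ℂ)
      (y : Fin (n * (q' + x + ρ) + s) → σ → ℂ),
      finrank ℂ (Z (HN n D) (full u y)) ≤ n * t - m * s := by
  classical
  have hJ : (J0 o).Nonempty := by
    rw [← Finset.card_pos, hk]
    exact hk0
  have hmk := card_J0 o
  rw [hk, hm] at hmk
  let α : Fin n × Fin x → Fin n := Prod.fst
  let β : Fin n × Fin ρ → Fin n := Prod.fst
  let γ : (Fin n × Fin q') ⊕ Fin s → Fin n := gm hs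
  have hcardIA : Fintype.card (Fin n × Fin x) = n * x := by simp
  have hcardIB : Fintype.card (Fin n × Fin ρ) = n * ρ := by simp
  have hcardIC : Fintype.card ((Fin n × Fin q') ⊕ Fin s) = n * q' + s := by simp
  have hα : ∀ l, (Finset.univ.filter fun k => α k = l).card = x := fun l => card_fst n x l
  have hβ : ∀ l, (Finset.univ.filter fun k => β k = l).card = ρ := fun l => card_fst n ρ l
  have hγ : ∀ l : Fin n, (Finset.univ.filter fun k => γ k = l).card =
      q' + if (l : ℕ) < s then 1 else 0 := fun l => card_gm hs l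
  -- the trace
  obtain ⟨a0, b0, htr0⟩ := trace_exists o D hJ α β
    (fun l j hj => by
      rw [hα, hk]
      exact hb j hj)
    (fun l => by
      rw [hα, hβ, hk, hcardIA, ha]
      have : (n + k0) * x = n * x + k0 * x := by ring
      omega)
  -- the dimension count for `D'`
  have hD1 : (dw o D).card = (n + m) * q' + x + (n + k0) * ρ + s + t := by
    have h1 := card_lo_add_card_dw o D
    rw [ha, hg] at h1
    have e1 : (n + m) * (q' + x + ρ) = (n + m) * q' + ((n + k0) * x + x) +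
        ((n + k0) * ρ + ρ) := by
      rw [← hmk]
      ring
    omega
  let δ : Fin n → ℕ := fun l => x + t - if (l : ℕ) < s then m else 0
  -- general points `B`, `C`
  have G1 : Gen fun p : ((Fin n × Fin ρ) ⊕ ((Fin n × Fin q') ⊕ Fin s)) × σ → ℂ => ∀ l,
      finrank ℂ (Z (Z (H (dw o D)) (rowf (J0 o) (Finset.univ.filter fun k => β k = l) (bp o p)))
        (rowf Finset.univ (Finset.univ.filter fun k => γ k = l) (cp p))) ≤ δ l := by
    refine Gen.forall fun l => res_gen o (dw o D) _ _ (δ l) hJ ?_ ?_ ?_ ?_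
    · rw [hβ, hk]
      exact hc
    · rw [hβ, hk, hcardIB, ← add_mul]
      exact hc'
    · intro j
      rw [hβ, hγ, hcardIB, hk, hm, ← add_mul]
      have := hd j
      have h2 : (m + 1) * (q' + if (l : ℕ) < s then 1 else 0) ≤ (m + 1) * (q' + 1) := by
        apply Nat.mul_le_mul_left
        split_ifs <;> omega
      omega
    · rw [hβ, hγ, hcardIB, hcardIC, hk, hm, hD1]
      have e1 : (n + m) * q' = n * q' + m * q' := by ring
      have e2 : (n + k0) * ρ = n * ρ + k0 * ρ := by ring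
      by_cases hls : (l : ℕ) < s
      · have hδl : δ l = x + t - m := by simp only [δ, if_pos hls]
        rw [hδl, if_pos hls]
        have e3 : m * (q' + 1) = m * q' + m := by ring
        have : m ≤ x + t := by
          rcases hf with h0 | h0
          · omega
          · exact h0
        omega
      · have hδl : δ l = x + t := by simp only [δ, if_neg hls, Nat.sub_zero]
        rw [hδl, if_neg hls, add_zero]
        omega
  have hex : ∀ l : Fin n, ∃ B' : Finset ((Fin n × Fin q') ⊕ Fin s),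
      B' ⊆ (Finset.univ.filter fun k => γ k = l) ∧ B'.card = h := by
    intro l
    refine Finset.exists_subset_card_eq ?_
    rw [hγ]
    omega
  choose B' hB' hB'card using hex
  have G2 : Gen fun p : ((Fin n × Fin ρ) ⊕ ((Fin n × Fin q') ⊕ Fin s)) × σ → ℂ => ∀ l,
      Z (H (dw o (dw o D))) (rowf Finset.univ (B' l) (cp p)) = ⊥ := by
    refine Gen.forall fun l => two_gen _ o (B' l) ?_ ?_
    · intro j
      rw [hB'card, hm]
      exact he1 j
    · rw [hB'card, hcardIC, hm]
      omega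
  have G3 := trace_gen_b (IC := (Fin n × Fin q') ⊕ Fin s) o D (fun k => eu (α k))
    (fun k => Function.update (a0 k) o 0) β b0 htr0
  have G4 : Gen fun p : ((Fin n × Fin ρ) ⊕ ((Fin n × Fin q') ⊕ Fin s)) × σ → ℂ =>
      ∀ k, cp p k o ≠ 0 := by
    refine Gen.forall fun k => ⟨fun p => cp p k o, isPol_cp k o, ⟨fun _ => 1, ?_⟩, fun p hp => hp⟩
    exact one_ne_zero
  obtain ⟨p, hp1, hp2, hp3, hp4⟩ := (G1.and (G2.and (G3.and G4))).exists
  have hbo : ∀ k, bp o p k o = 0 := fun k => by simp [bp]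
  -- the residual space
  have hRfin : finrank ℂ (Z (HN n (dw o D)) (resR o β (bp o p) (fun k => eu (γ k)) (cp p))) ≤
      n * (x + t) - m * s := by
    refine (finrank_resR o (dw o D) β (bp o p) γ (cp p) δ hp1).trans (le_of_eq ?_)
    have h4 : ∑ l : Fin n, (δ l + if (l : ℕ) < s then m else 0) = ∑ l : Fin n, (x + t) := by
      refine Finset.sum_congr rfl fun l _ => ?_
      by_cases hls : (l : ℕ) < s
      · have hδl : δ l = x + t - m := by simp only [δ, if_pos hls]
        rw [hδl, if_pos hls]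
        have : m ≤ x + t := by
          rcases hf with h0 | h0
          · omega
          · exact h0
        omega
      · have hδl : δ l = x + t := by simp only [δ, if_neg hls, Nat.sub_zero]
        rw [hδl, if_neg hls, add_zero]
    rw [Finset.sum_add_distrib, sum_ite_lt hs, Finset.sum_const, Finset.card_univ,
      Fintype.card_fin, smul_eq_mul] at h4
    omega
  -- general `A`
  have Q1 := trace_gen_a o D (fun k => eu (α k)) a0 β (bp o p) hp3
  have Q2 := part_gen (IA := Fin n × Fin x) o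
    (Z (HN n (dw o D)) (resR o β (bp o p) (fun k => eu (γ k)) (cp p))) (n * t - m * s)
    (by
      rw [hcardIA]
      have e1 : n * (x + t) = n * x + n * t := by ring
      omega)
    (fun F hF hT => resR_T o (dw o D) β (bp o p) γ (cp p) hp4 B'
      (fun l k hk => (Finset.mem_filter.1 (hB' l hk)).2) hp2 F hF hT)
  obtain ⟨w, hw1, hw2⟩ := (Q1.and Q2).exists
  obtain ⟨s0, hs0⟩ := step o D (up w) (ap o w) (fun k => by simp [ap]) β (bp o p) hbo
    (fun k => eu (γ k)) (cp p) hp4 (n * t - m * s) hw1 (by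
      refine le_trans (Submodule.finrank_mono ?_) hw2
      intro F hF
      rw [mem_Z] at hF
      rw [mem_Z]
      refine ⟨?_, fun k => hF.2 (Sum.inl k)⟩
      rw [mem_Z]
      refine ⟨hF.1, fun r => ?_⟩
      have := hF.2 (Sum.inr r)
      rcases r with ⟨k, l | i⟩ | r
      · exact this
      · exact this
      · exact this)
  -- reindexing
  have hcard : Fintype.card ((Fin n × Fin x) ⊕ ((Fin n × Fin ρ) ⊕
      ((Fin n × Fin q') ⊕ Fin s))) = n * (q' + x + ρ) + s := by
    simp only [Fintype.card_sum, Fintype.card_prod, Fintype.card_fin]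
    ring
  let e := (Fintype.equivFinOfCardEq hcard).symm
  let U := Sum.elim (up w) (Sum.elim (fun k => eu (β k)) (fun k => eu (γ k)))
  let Y := Sum.elim (ap o w) (Sum.elim (fun k => Function.update (bp o p k) o s0) (cp p))
  refine ⟨fun k => U (e k), fun k => Y (e k), le_trans (Submodule.finrank_mono
    (Z_le_Z _ _ (full U Y) fun F _ hF r => ?_)) hs0⟩
  obtain ⟨k, r⟩ := r
  have := hF (e.symm k, r)
  rcases r with l | i
  · simpa only [full, Equiv.apply_symm_apply] using this
  · simpa only [full, Equiv.apply_symm_apply] using this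

end Pool.Agent.SV.E
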