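import Mathlib

/-!
# Arithmetic for `n ≤ m`
-/

set_option autoImplicit false

namespace Pool.Agent.SV.E

theorem le_of_mul_le' {a b c : ℕ} (hc : 0 < c) (h : c * a ≤ c * b) : a ≤ b :=
  Nat.le_of_mul_le_mul_left h hc

/-- All numerical hypotheses of `nle`; `y = n + m - 1`. -/
theorem arith {n m y N N0 N1 N10 N2 K0 K10 K1 K2 s t : ℕ} (hn : 2 ≤ n) (hm : 2 ≤ m)
    (hnm : n ≤ m) (hy : y + 1 = n + m) (e1 : N0 + N1 = N) (e2 : N10 + N2 = N1)
    (k0 : (m + 1) * N0 ≤ (n + m) * K0) (k10 : (m + 1) * N10 ≤ (n + m) * K10)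
    (k1 : (m + 1) * N1 ≤ (n + m) * K1) (k2 : (m + 1) * N2 ≤ (n + m) * K2)
    (k3 : (m + 1) * N0 ≤ (n + m) * N10) (big : (n + m) * y ^ 2 ≤ N0)
    (hst : s + t = N % (n + m)) :
    ∃ x ρ q' h : ℕ, N0 = y * x + ρ ∧ m * x ≤ K0 ∧ m * ρ ≤ K10 ∧ y * ρ ≤ N10 ∧
      (m + 1) * (q' + 1) + y * ρ ≤ K1 ∧ h ≤ q' ∧ (m + 1) * h ≤ K2 ∧
      N2 ≤ m * h + (n * q' + s) ∧ (s = 0 ∨ m ≤ x + t) ∧
      N = (n + m) * (q' + x + ρ) + s + t ∧ q' + x + ρ = N / (n + m) := by
  rw [← hy] at k0 k10 k1 k2 k3 big hst ⊢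
  have hy3 : 3 ≤ y := by omega
  have hym : m + 1 ≤ y := by omega
  obtain ⟨x, hx⟩ : ∃ x, x = N0 / y := ⟨_, rfl⟩
  obtain ⟨ρ, hρ⟩ : ∃ ρ, ρ = N0 % y := ⟨_, rfl⟩
  have hN0 : y * x + ρ = N0 := by rw [hx, hρ]; exact Nat.div_add_mod _ _
  have hρy : ρ < y := by rw [hρ]; exact Nat.mod_lt _ (by omega)
  obtain ⟨w, hw⟩ : ∃ w, w = N % (y + 1) := ⟨_, rfl⟩
  obtain ⟨q, hq⟩ : ∃ q, q = N / (y + 1) := ⟨_, rfl⟩
  have hN : (y + 1) * q + w = N := by rw [hq, hw]; exact Nat.div_add_mod _ _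
  have hwy : w < y + 1 := by rw [hw]; exact Nat.mod_lt _ (by omega)
  rw [← hw] at hst
  -- `x` is large
  have hx1 : (y + 1) * y ≤ x := by
    have h1 : y * ((y + 1) * y) < y * (x + 1) := by
      calc y * ((y + 1) * y) = (y + 1) * y ^ 2 := by ring
        _ ≤ N0 := big
        _ < y * (x + 1) := by rw [← hN0]; linarith [hρy, mul_add y x 1]
    have := Nat.lt_of_mul_lt_mul_left h1
    omega
  -- `N10` is large
  have hP : x + y * (m * y - 1) ≤ N10 := by
    obtain ⟨z, hz⟩ : ∃ z, m * y = z + 1 := ⟨m * y - 1, by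
      have : 0 < m * y := Nat.mul_pos (by omega) (by omega)
      omega⟩
    rw [hz, Nat.add_sub_cancel]
    refine le_of_mul_le' (c := y + 1) (by omega) ?_
    calc (y + 1) * (x + y * z) = (y + 1) * x + ((y + 1) * y) * z := by ring
      _ ≤ (y + 1) * x + x * z := Nat.add_le_add_left (Nat.mul_le_mul_right _ hx1) _
      _ = x * (y + (z + 1)) := by ring
      _ = x * (y + m * y) := by rw [hz]
      _ = (m + 1) * (y * x) := by ring
      _ ≤ (m + 1) * N0 := Nat.mul_le_mul_left _ (by omega)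
      _ ≤ _ := k3
  have hmy : 2 * y ≤ m * y := Nat.mul_le_mul_right _ hm
  have hyρ : y * ρ ≤ y * (y - 1) := Nat.mul_le_mul_left _ (by omega)
  have hyy : y * (y - 1) + y = y * y := by
    obtain ⟨z, rfl⟩ : ∃ z, y = z + 1 := ⟨y - 1, by omega⟩
    rw [Nat.add_sub_cancel]
    ring
  have hP2 : y * y + y * (m * y - 1 - y) = y * (m * y - 1) := by
    rw [← mul_add]
    congr 1
    omega
  -- `x + y ρ + w ≤ N10` with a margin
  have hP3 : x + y * ρ + w + y * (m * y - 1 - y) ≤ N10 := by omega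
  -- `q'`
  have hq1 : x + ρ ≤ q := by
    refine le_of_mul_le' (c := y + 1) (by omega) ?_
    have h1 : (y + 1) * (x + ρ) = y * x + ρ + x + y * ρ := by ring
    omega
  obtain ⟨q', rfl⟩ : ∃ q', q = q' + x + ρ := ⟨q - x - ρ, by omega⟩
  have hq' : (y + 1) * q' + x + y * ρ + w = N1 := by
    have h1 : (y + 1) * (q' + x + ρ) = (y + 1) * q' + (y * x + ρ) + x + y * ρ := by ring
    omega
  obtain ⟨h, hh⟩ : ∃ h, h = N2 / (y + 1) := ⟨_, rfl⟩
  have hh1 : (y + 1) * h ≤ N2 := by rw [hh]; exact Nat.mul_div_le _ _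
  have hh2 : N2 ≤ (y + 1) * h + y := by
    have := Nat.div_add_mod N2 (y + 1)
    rw [← hh] at this
    have := Nat.mod_lt N2 (show 0 < y + 1 by omega)
    omega
  refine ⟨x, ρ, q', h, hN0.symm, ?_, ?_, by omega, ?_, ?_, ?_, ?_, ?_, by omega, by
    rw [← hq]⟩
  · -- (b)
    refine le_of_mul_le' (c := y + 1) (by omega) ?_
    calc (y + 1) * (m * x) = (m * y + m) * x := by ring
      _ ≤ (m * y + y) * x := Nat.mul_le_mul_right _ (by omega)
      _ = (m + 1) * (y * x) := by ring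
      _ ≤ (m + 1) * N0 := Nat.mul_le_mul_left _ (by omega)
      _ ≤ _ := k0
  · -- (c)
    refine le_of_mul_le' (c := y + 1) (by omega) ?_
    have h1 : (y + 1) * ρ ≤ y * (m * y - 1) := by
      calc (y + 1) * ρ = y * ρ + ρ := by ring
        _ ≤ y * y := by omega
        _ ≤ y * (m * y - 1) := Nat.mul_le_mul_left _ (by omega)
    calc (y + 1) * (m * ρ) = m * ((y + 1) * ρ) := by ring
      _ ≤ m * N10 := Nat.mul_le_mul_left _ (by omega)
      _ ≤ (m + 1) * N10 := Nat.mul_le_mul_right _ (by omega)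
      _ ≤ _ := k10
  · -- (d)
    refine le_of_mul_le' (c := y + 1) (by omega) ?_
    have h2 : (y + 1) * (m + 1) + (y + 1) * (y * ρ) ≤ (m + 1) * (x + y * ρ) := by
      obtain ⟨z, rfl⟩ : ∃ z, y = z + 1 := ⟨y - 1, by omega⟩
      have h3 : (m + 1) * ((z + 1 + 1) * (z + 1)) ≤ (m + 1) * x := Nat.mul_le_mul_left _ hx1
      have h4 : n * ((z + 1) * ρ) ≤ (m + 1) * ((z + 1 + 1) * z) + (z + 1) * ρ := by
        obtain ⟨n', rfl⟩ : ∃ n', n = n' + 1 := ⟨n - 1, by omega⟩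
        have h5 : n' * ((z + 1) * ρ) ≤ (m + 1) * ((z + 1 + 1) * z) := by
          refine Nat.mul_le_mul (by omega) ?_
          refine Nat.mul_le_mul (by omega) (by omega)
        have h6 : (n' + 1) * ((z + 1) * ρ) = n' * ((z + 1) * ρ) + (z + 1) * ρ := by ring
        omega
      have h7 : (z + 1 + 1) * ((z + 1) * ρ) = n * ((z + 1) * ρ) + m * ((z + 1) * ρ) := by
        rw [← add_mul, ← hy]
      have h8 : (m + 1) * (x + (z + 1) * ρ) = (m + 1) * x + m * ((z + 1) * ρ) +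
          (z + 1) * ρ := by ring
      have h9 : (m + 1) * ((z + 1 + 1) * (z + 1)) = (z + 1 + 1) * (m + 1) +
          (m + 1) * ((z + 1 + 1) * z) := by ring
      omega
    calc (y + 1) * ((m + 1) * (q' + 1) + y * ρ) =
        (m + 1) * ((y + 1) * q') + ((y + 1) * (m + 1) + (y + 1) * (y * ρ)) := by ring
      _ ≤ (m + 1) * ((y + 1) * q') + (m + 1) * (x + y * ρ) := Nat.add_le_add_left h2 _
      _ = (m + 1) * ((y + 1) * q' + x + y * ρ) := by ring
      _ ≤ (m + 1) * N1 := Nat.mul_le_mul_left _ (by omega)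
      _ ≤ _ := k1
  · -- `h ≤ q'`
    refine le_of_mul_le' (c := y + 1) (by omega) ?_
    omega
  · refine le_of_mul_le' (c := y + 1) (by omega) ?_
    calc (y + 1) * ((m + 1) * h) = (m + 1) * ((y + 1) * h) := by ring
      _ ≤ (m + 1) * N2 := Nat.mul_le_mul_left _ hh1
      _ ≤ _ := k2
  · -- (e)
    refine le_of_mul_le' (c := y + 1) (by omega) ?_
    have h1 : m * N2 ≤ m * ((y + 1) * h + y) := Nat.mul_le_mul_left _ hh2
    have h2 : N2 + y * (m * y - 1 - y) ≤ (y + 1) * q' := by omega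
    have h3 : n * (N2 + y * (m * y - 1 - y)) ≤ n * ((y + 1) * q') := Nat.mul_le_mul_left _ h2
    have h4 : m * y ≤ n * (y * (m * y - 1 - y)) := by
      have h5 : m ≤ 2 * (m * y - 1 - y) := by
        obtain ⟨m', rfl⟩ : ∃ m', m = m' + 2 := ⟨m - 2, by omega⟩
        have h6 : (m' + 2) * y = m' * y + 2 * y := by ring
        have h7 : m' ≤ m' * y := Nat.le_mul_of_pos_right _ (by omega)
        omega
      calc m * y ≤ (2 * (m * y - 1 - y)) * y := Nat.mul_le_mul_right _ h5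
        _ = 2 * (y * (m * y - 1 - y)) := by ring
        _ ≤ n * (y * (m * y - 1 - y)) := Nat.mul_le_mul_right _ hn
    have h8 : (y + 1) * N2 = n * N2 + m * N2 := by rw [← add_mul, ← hy]
    have h9 : n * (N2 + y * (m * y - 1 - y)) = n * N2 + n * (y * (m * y - 1 - y)) := by ring
    have h10 : m * ((y + 1) * h + y) = m * ((y + 1) * h) + m * y := by ring
    have h11 : (y + 1) * (m * h + (n * q' + s)) = m * ((y + 1) * h) + n * ((y + 1) * q') +
        (y + 1) * s := by ring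
    have h12 : 0 ≤ (y + 1) * s := Nat.zero_le _
    omega
  · right
    have : m ≤ (y + 1) * y := by
      calc m ≤ y := by omega
        _ ≤ (y + 1) * y := Nat.le_mul_of_pos_left _ (by omega)
    omega

end Pool.Agent.SV.E
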