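import Pool.Agent.Lib.MP_b54217_ag.E.Defs

/-!
# Polynomial functions of the parameters, general position and semicontinuity
-/

set_option autoImplicit false

namespace Pool.Agent.SV.E

open MvPolynomial

section pol

variable {τ : Type}

theorem IsPol.const (c : ℂ) : IsPol (fun _ : τ → ℂ => c) := ⟨C c, fun p => by simp⟩

theorem IsPol.coord (t : τ) : IsPol (fun p : τ → ℂ => p t) := ⟨X t, fun p => by simp⟩

theorem IsPol.add {f g : (τ → ℂ) → ℂ} (hf : IsPol f) (hg : IsPol g) :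
    IsPol (fun p => f p + g p) := by
  obtain ⟨P, hP⟩ := hf
  obtain ⟨Q, hQ⟩ := hg
  exact ⟨P + Q, fun p => by simp [hP, hQ]⟩

theorem IsPol.mul {f g : (τ → ℂ) → ℂ} (hf : IsPol f) (hg : IsPol g) :
    IsPol (fun p => f p * g p) := by
  obtain ⟨P, hP⟩ := hf
  obtain ⟨Q, hQ⟩ := hg
  exact ⟨P * Q, fun p => by simp [hP, hQ]⟩

theorem IsPol.neg {f : (τ → ℂ) → ℂ} (hf : IsPol f) : IsPol (fun p => -f p) := by
  obtain ⟨P, hP⟩ := hf
  exact ⟨-P, fun p => by simp [hP]⟩

theorem IsPol.sub {f g : (τ → ℂ) → ℂ} (hf : IsPol f) (hg : IsPol g) :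
    IsPol (fun p => f p - g p) := by
  obtain ⟨P, hP⟩ := hf
  obtain ⟨Q, hQ⟩ := hg
  exact ⟨P - Q, fun p => by simp [hP, hQ]⟩

theorem IsPol.pow {f : (τ → ℂ) → ℂ} (hf : IsPol f) (n : ℕ) : IsPol (fun p => f p ^ n) := by
  obtain ⟨P, hP⟩ := hf
  exact ⟨P ^ n, fun p => by simp [hP]⟩

theorem IsPol.sum {ι : Type*} (s : Finset ι) {f : ι → (τ → ℂ) → ℂ}
    (hf : ∀ i ∈ s, IsPol (f i)) : IsPol (fun p => ∑ i ∈ s, f i p) := by
  classical
  choose! P hP using hf
  refine ⟨∑ i ∈ s, P i, fun p => ?_⟩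
  rw [map_sum]
  exact Finset.sum_congr rfl fun i hi => hP i hi p

theorem IsPol.prod {ι : Type*} (s : Finset ι) {f : ι → (τ → ℂ) → ℂ}
    (hf : ∀ i ∈ s, IsPol (f i)) : IsPol (fun p => ∏ i ∈ s, f i p) := by
  classical
  choose! P hP using hf
  refine ⟨∏ i ∈ s, P i, fun p => ?_⟩
  rw [map_prod]
  exact Finset.prod_congr rfl fun i hi => hP i hi p

/-- The value of a fixed polynomial at a point which depends polynomially on the parameters. -/
theorem IsPol.eval {σ : Type} (f : MvPolynomial σ ℂ) {y : (τ → ℂ) → σ → ℂ}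
    (hy : ∀ i, IsPol fun p => y p i) : IsPol (fun p => MvPolynomial.eval (y p) f) := by
  choose P hP using hy
  refine ⟨MvPolynomial.aeval P f, fun p => ?_⟩
  have : y p = fun i => MvPolynomial.eval p (P i) := funext fun i => hP i p
  change MvPolynomial.eval (y p) f = _
  rw [this]
  induction f using MvPolynomial.induction_on with
  | C a => simp
  | add f g hf hg => simp [hf, hg]
  | mul_X f i hf => simp [hf]

theorem IsPol.ev {σ : Type} (f : MvPolynomial σ ℂ) {y : (τ → ℂ) → σ → ℂ}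
    (hy : ∀ i, IsPol fun p => y p i) : IsPol (fun p => ev (y p) f) := by
  simp only [ev_apply]
  exact IsPol.eval f hy

theorem IsPol.dv {σ : Type} (i : σ) (f : MvPolynomial σ ℂ) {y : (τ → ℂ) → σ → ℂ}
    (hy : ∀ i, IsPol fun p => y p i) : IsPol (fun p => dv i (y p) f) := by
  simp only [dv_apply]
  exact IsPol.eval _ hy

/-- The determinant of a matrix of polynomial functions. -/
theorem IsPol.det {ι : Type*} [Fintype ι] [DecidableEq ι] {M : (τ → ℂ) → Matrix ι ι ℂ}
    (hM : ∀ i j, IsPol fun p => M p i j) : IsPol (fun p => (M p).det) := by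
  simp only [Matrix.det_apply']
  refine IsPol.sum _ fun s _ => IsPol.mul (IsPol.const _) (IsPol.prod _ fun i _ => hM _ _)

theorem Gen.exists {Q : (τ → ℂ) → Prop} (h : Gen Q) : ∃ p, Q p := by
  obtain ⟨g, -, ⟨p, hp⟩, hQ⟩ := h
  exact ⟨p, hQ p hp⟩

theorem Gen.mono {Q R : (τ → ℂ) → Prop} (h : Gen Q) (hR : ∀ p, Q p → R p) : Gen R := by
  obtain ⟨g, hg, hp, hQ⟩ := h
  exact ⟨g, hg, hp, fun p hp => hR p (hQ p hp)⟩

theorem isPol_mul_ne {f g : (τ → ℂ) → ℂ} (hf : IsPol f) (hg : IsPol g) (hf' : ∃ p, f p ≠ 0)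
    (hg' : ∃ p, g p ≠ 0) : ∃ p, f p * g p ≠ 0 := by
  obtain ⟨P, hP⟩ := hf
  obtain ⟨Q, hQ⟩ := hg
  have hP0 : P ≠ 0 := by
    rintro rfl
    obtain ⟨p, hp⟩ := hf'
    exact hp (by rw [hP]; simp)
  have hQ0 : Q ≠ 0 := by
    rintro rfl
    obtain ⟨p, hp⟩ := hg'
    exact hp (by rw [hQ]; simp)
  by_contra hcon
  push Not at hcon
  have : P * Q = 0 := MvPolynomial.funext fun p => by
    rw [map_mul, ← hP, ← hQ, hcon p, map_zero]
  rcases mul_eq_zero.1 this with h | h
  · exact hP0 h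
  · exact hQ0 h

theorem Gen.and {Q R : (τ → ℂ) → Prop} (hQ : Gen Q) (hR : Gen R) : Gen fun p => Q p ∧ R p := by
  obtain ⟨f, hf, hf', hfQ⟩ := hQ
  obtain ⟨g, hg, hg', hgR⟩ := hR
  exact ⟨fun p => f p * g p, hf.mul hg, isPol_mul_ne hf hg hf' hg', fun p hp =>
    ⟨hfQ p (left_ne_zero_of_mul hp), hgR p (right_ne_zero_of_mul hp)⟩⟩

theorem Gen.true : Gen fun _ : τ → ℂ => True :=
  ⟨fun _ => 1, IsPol.const 1, ⟨fun _ => 0, one_ne_zero⟩, fun _ _ => trivial⟩

theorem Gen.forall_finset {ι : Type*} (s : Finset ι) {Q : ι → (τ → ℂ) → Prop}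
    (h : ∀ i ∈ s, Gen (Q i)) : Gen fun p => ∀ i ∈ s, Q i p := by
  classical
  induction s using Finset.induction_on with
  | empty => exact Gen.true.mono fun p _ i hi => absurd hi (Finset.notMem_empty i)
  | insert a s ha ih =>
    have h1 := h a (Finset.mem_insert_self a s)
    have h2 := ih fun i hi => h i (Finset.mem_insert_of_mem hi)
    refine (h1.and h2).mono fun p hp i hi => ?_
    rcases Finset.mem_insert.1 hi with rfl | hi
    · exact hp.1
    · exact hp.2 i hi

theorem Gen.forall {ι : Type*} [Finite ι] {Q : ι → (τ → ℂ) → Prop} (h : ∀ i, Gen (Q i)) :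
    Gen fun p => ∀ i, Q i p := by
  cases nonempty_fintype ι
  refine (Gen.forall_finset Finset.univ fun i _ => h i).mono fun p hp i =>
    hp i (Finset.mem_univ i)

/-- Transport along a polynomial change of the parameters: enough to be nonempty. -/
theorem Gen.comp {τ' : Type} {Q : (τ → ℂ) → Prop} {g : (τ → ℂ) → ℂ} (hg : IsPol g)
    (hQ : ∀ p, g p ≠ 0 → Q p) {y : (τ' → ℂ) → τ → ℂ} (hy : ∀ i, IsPol fun p => y p i)
    {p0 : τ' → ℂ} (hp0 : g (y p0) ≠ 0) : Gen fun p => Q (y p) := by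
  obtain ⟨P, hP⟩ := hg
  refine ⟨fun p => g (y p), ?_, ⟨p0, hp0⟩, fun p hp => hQ _ hp⟩
  simp only [hP]
  exact IsPol.eval P hy

end pol

/-- SEMICONTINUITY: if the joint kernel at `p0` has dimension at most `δ`, then the same is true
outside the zero set of a polynomial which does not vanish at `p0`. -/
theorem semi {E R : Type*} [AddCommGroup E] [Module ℂ E] [Finite R] {τ : Type}
    (V : Submodule ℂ E) [FiniteDimensional ℂ V] (φ : R → (τ → ℂ) → E →ₗ[ℂ] ℂ)
    (hφ : ∀ r, ∀ v ∈ V, IsPol fun p => φ r p v) (p0 : τ → ℂ) (δ : ℕ)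
    (h : Module.finrank ℂ (Z V fun r => φ r p0) ≤ δ) :
    ∃ g : (τ → ℂ) → ℂ, IsPol g ∧ g p0 ≠ 0 ∧
      ∀ p, g p ≠ 0 → Module.finrank ℂ (Z V fun r => φ r p) ≤ δ := by
  classical
  cases nonempty_fintype R
  set K : Submodule ℂ V := (Z V fun r => φ r p0).submoduleOf V with hK
  -- a complement of `K`
  obtain ⟨W, hW⟩ := Submodule.exists_isCompl K
  -- the functionals on `V`
  let Φ : (τ → ℂ) → V →ₗ[ℂ] (R → ℂ) := fun p => LinearMap.pi fun r => (φ r p).comp V.subtype
  have hinj : Function.Injective ((Φ p0).comp W.subtype) := by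
    rw [← LinearMap.ker_eq_bot, LinearMap.ker_eq_bot']
    rintro ⟨w, hw⟩ hw0
    have hw1 : w ∈ K := by
      change (w : E) ∈ Z V fun r => φ r p0
      rw [mem_Z]
      exact ⟨w.2, fun r => congrFun hw0 r⟩
    have : w ∈ K ⊓ W := ⟨hw1, hw⟩
    rw [hW.inf_eq_bot, Submodule.mem_bot] at this
    exact Subtype.ext this
  obtain ⟨P, hP⟩ := LinearMap.exists_leftInverse_of_injective _ (LinearMap.ker_eq_bot.2 hinj)
  let M : (τ → ℂ) → W →ₗ[ℂ] W := fun p => P.comp ((Φ p).comp W.subtype)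
  have hM0 : M p0 = LinearMap.id := hP
  refine ⟨fun p => LinearMap.det (M p), ?_, ?_, ?_⟩
  · let b := Module.finBasis ℂ W
    have : ∀ p, LinearMap.det (M p) = (LinearMap.toMatrix b b (M p)).det := fun p =>
      (LinearMap.det_toMatrix b (M p)).symm
    simp only [this]
    refine IsPol.det fun i j => ?_
    simp only [LinearMap.toMatrix_apply]
    have hexp : ∀ p, b.repr (M p (b j)) i =
        ∑ r, φ r p ((b j : W) : V) * b.repr (P (Pi.single r 1)) i := by
      intro p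
      have h1 : M p (b j) = ∑ r, φ r p ((b j : W) : V) • P (Pi.single r 1) := by
        have h2 : (Φ p) ((b j : W) : V) = ∑ r, φ r p ((b j : W) : V) • Pi.single r (1 : ℂ) := by
          funext r
          simp [Φ, Finset.sum_apply, Pi.single_apply]
        change P ((Φ p) ((b j : W) : V)) = _
        rw [h2, map_sum]
        exact Finset.sum_congr rfl fun r _ => by rw [map_smul]
      rw [h1, map_sum, Finsupp.finsetSum_apply]
      exact Finset.sum_congr rfl fun r _ => by simp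
    simp only [hexp]
    exact IsPol.sum _ fun r _ => IsPol.mul (hφ r _ (Subtype.property _)) (IsPol.const _)
  · change LinearMap.det (M p0) ≠ 0
    rw [hM0]
    simp
  · intro p hp
    set K' : Submodule ℂ V := (Z V fun r => φ r p).submoduleOf V with hK'
    have hdisj : K' ⊓ W = ⊥ := by
      rw [eq_bot_iff]
      rintro v ⟨hv1, hv2⟩
      have h0 : M p ⟨v, hv2⟩ = 0 := by
        change P ((Φ p) v) = 0
        have : (Φ p) v = 0 := by
          funext r
          have hv3 : (v : E) ∈ Z V fun r => φ r p := hv1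
          exact (mem_Z.1 hv3).2 r
        rw [this, map_zero]
      have hu : IsUnit (LinearMap.det (M p)) := isUnit_iff_ne_zero.2 hp
      have hb := (LinearMap.isUnit_iff_ker_eq_bot _).1 ((LinearMap.isUnit_iff_isUnit_det _).2 hu)
      have : (⟨v, hv2⟩ : W) = 0 := by
        rw [← Submodule.mem_bot ℂ, ← hb]
        exact h0
      simpa using congrArg Subtype.val this
    have hd1 : Module.finrank ℂ K' + Module.finrank ℂ W ≤ Module.finrank ℂ V := by
      rw [← Submodule.finrank_sup_add_finrank_inf_eq, hdisj, finrank_bot, add_zero]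
      exact Submodule.finrank_le _
    have hd2 : Module.finrank ℂ K + Module.finrank ℂ W = Module.finrank ℂ V :=
      Submodule.finrank_add_eq_of_isCompl hW
    have e1 : Module.finrank ℂ K = Module.finrank ℂ (Z V fun r => φ r p0) :=
      (Submodule.submoduleOfEquivOfLe (Z_le _ _)).finrank_eq
    have e2 : Module.finrank ℂ K' = Module.finrank ℂ (Z V fun r => φ r p) :=
      (Submodule.submoduleOfEquivOfLe (Z_le _ _)).finrank_eq
    omega

/-- The generic form. -/
theorem semi_gen {E R : Type*} [AddCommGroup E] [Module ℂ E] [Finite R] {τ : Type}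
    (V : Submodule ℂ E) [FiniteDimensional ℂ V] (φ : R → (τ → ℂ) → E →ₗ[ℂ] ℂ)
    (hφ : ∀ r, ∀ v ∈ V, IsPol fun p => φ r p v) (p0 : τ → ℂ) (δ : ℕ)
    (h : Module.finrank ℂ (Z V fun r => φ r p0) ≤ δ) :
    Gen fun p => Module.finrank ℂ (Z V fun r => φ r p) ≤ δ := by
  obtain ⟨g, hg, hg0, hgp⟩ := semi V φ hφ p0 δ h
  exact ⟨g, hg, ⟨p0, hg0⟩, hgp⟩

end Pool.Agent.SV.E
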