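import Pool.Agent.Lib.MP_b54217_ag.E.Step

/-!
# The rows of the residual system and of the trace system in general position
-/

set_option autoImplicit false

namespace Pool.Agent.SV.E

open MvPolynomial Module

theorem Z_Z {E R S : Type*} [AddCommGroup E] [Module ℂ E] (V : Submodule ℂ E)
    (φ : R → E →ₗ[ℂ] ℂ) (ψ : S → E →ₗ[ℂ] ℂ) : Z (Z V φ) ψ = Z V (Sum.elim φ ψ) := by
  ext v
  simp only [mem_Z, Sum.forall, Sum.elim_inl, Sum.elim_inr]
  tauto

section res

variable {σ : Type} [DecidableEq σ] [Fintype σ]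

/-- The directions of `T = {x_o = 0}`. -/
def J0 (o : σ) : Finset σ := Finset.univ.erase o

theorem mem_J0 {o i : σ} : i ∈ J0 o ↔ i ≠ o := by simp [J0]

theorem card_J0 (o : σ) : (J0 o).card + 1 = Fintype.card σ := by
  rw [J0, Finset.card_erase_of_mem (Finset.mem_univ o), Finset.card_univ]
  have : 0 < Fintype.card σ := Fintype.card_pos_iff.2 ⟨o⟩
  omega

variable {IA IB IC : Type} [Fintype IA] [Fintype IB] [Fintype IC]

/-- A row of the residual system: `T`-double points `BB`, double points `BC`. -/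
theorem res_row (o : σ) (D1 : Finset (σ →₀ ℕ)) (BB : Finset IB) (BC : Finset IC) (δ : ℕ)
    (hJ : (J0 o).Nonempty)
    (hc : ∀ j ∈ J0 o, ((J0 o).card + 1) * BB.card ≤ (sh j (lo o D1)).card)
    (hc' : Fintype.card IB + (J0 o).card * BB.card ≤ (lo o D1).card)
    (hd : ∀ j, (Fintype.card σ + 1) * BC.card + (Fintype.card IB + (J0 o).card * BB.card) ≤
      (sh j D1).card)
    (hδ : D1.card ≤ δ + (Fintype.card IB + (J0 o).card * BB.card) +
      (Fintype.card IC + Fintype.card σ * BC.card)) :
    ∃ (b : IB → σ → ℂ) (c : IC → σ → ℂ),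
      finrank ℂ (Z (Z (H D1) (rowf (J0 o) BB fun k => Function.update (b k) o 0))
        (rowf Finset.univ BC c)) ≤ δ := by
  obtain ⟨b, hb⟩ := row (lo o D1) (J0 o) hJ (H (lo o D1)) le_rfl BB fun j hj => by
    rw [finrank_H]
    have := hc j hj
    omega
  rw [finrank_H] at hb
  have hle : H (lo o D1) ≤ H D1 := by
    intro f hf
    rw [mem_H] at hf ⊢
    exact hf.trans (Finset.filter_subset _ _)
  have hb' : finrank ℂ (Z (H (lo o D1)) (rowf (J0 o) BB fun k => Function.update (b k) o 0)) +
      (Fintype.card IB + (J0 o).card * BB.card) ≤ finrank ℂ (H (lo o D1)) := by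
    rw [finrank_H]
    have heq : Z (H (lo o D1)) (rowf (J0 o) BB fun k => Function.update (b k) o 0) ≤
        Z (H (lo o D1)) (rowf (J0 o) BB b) := by
      intro f hf
      rw [mem_Z_rowf] at hf ⊢
      obtain ⟨h1, h2, h3⟩ := hf
      refine ⟨h1, fun k => ?_, fun k hk j hj => ?_⟩
      · have := h2 k
        rwa [ev_update h1] at this
      · have := h3 k hk j hj
        rwa [dv_update h1] at this
    have := Submodule.finrank_mono heq
    omega
  have hV := finrank_Z_add_le_of_le hle _ hb'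
  rw [finrank_H] at hV
  set VT := Z (H D1) (rowf (J0 o) BB fun k => Function.update (b k) o 0) with hVT
  have hlow : D1.card ≤ finrank ℂ VT + (Fintype.card IB + (J0 o).card * BB.card) := by
    have := le_finrank_Z (H D1) (rowf (J0 o) BB fun k => Function.update (b k) o 0)
    rw [← hVT, Fintype.card_sum, Fintype.card_prod, Fintype.card_coe, Fintype.card_coe,
      finrank_H] at this
    have h2 : BB.card * (J0 o).card = (J0 o).card * BB.card := by ring
    omega
  have huniv : (Finset.univ : Finset σ).card = Fintype.card σ := Finset.card_univ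
  obtain ⟨c, hcc⟩ := row D1 Finset.univ ⟨o, Finset.mem_univ o⟩ VT (Z_le _ _) BC fun j _ => by
    rw [huniv]
    have := hd j
    omega
  rw [huniv] at hcc
  refine ⟨b, c, ?_⟩
  rw [← hVT]
  omega

/-- The point `k` of `B` (on `T`). -/
def bp (o : σ) (p : (IB ⊕ IC) × σ → ℂ) (k : IB) : σ → ℂ :=
  Function.update (fun i => p (Sum.inl k, i)) o 0

/-- The point `k` of `C`. -/
def cp (p : (IB ⊕ IC) × σ → ℂ) (k : IC) : σ → ℂ := fun i => p (Sum.inr k, i)

omit [Fintype σ] [Fintype IB] [Fintype IC] in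
theorem isPol_bp (o : σ) (k : IB) (i : σ) :
    IsPol fun p : (IB ⊕ IC) × σ → ℂ => bp o p k i := by
  by_cases h : i = o
  · subst h
    simpa [bp] using IsPol.const 0
  · simpa [bp, h] using IsPol.coord (Sum.inl k, i)

omit [DecidableEq σ] [Fintype σ] [Fintype IB] [Fintype IC] in
theorem isPol_cp (k : IC) (i : σ) : IsPol fun p : (IB ⊕ IC) × σ → ℂ => cp p k i :=
  IsPol.coord _

theorem res_gen (o : σ) (D1 : Finset (σ →₀ ℕ)) (BB : Finset IB) (BC : Finset IC) (δ : ℕ)
    (hJ : (J0 o).Nonempty)
    (hc : ∀ j ∈ J0 o, ((J0 o).card + 1) * BB.card ≤ (sh j (lo o D1)).card)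
    (hc' : Fintype.card IB + (J0 o).card * BB.card ≤ (lo o D1).card)
    (hd : ∀ j, (Fintype.card σ + 1) * BC.card + (Fintype.card IB + (J0 o).card * BB.card) ≤
      (sh j D1).card)
    (hδ : D1.card ≤ δ + (Fintype.card IB + (J0 o).card * BB.card) +
      (Fintype.card IC + Fintype.card σ * BC.card)) :
    Gen fun p : (IB ⊕ IC) × σ → ℂ =>
      finrank ℂ (Z (Z (H D1) (rowf (J0 o) BB (bp o p))) (rowf Finset.univ BC (cp p))) ≤ δ := by
  obtain ⟨b, c, h⟩ := res_row o D1 BB BC δ hJ hc hc' hd hδ
  rw [Z_Z] at h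
  refine (semi_gen (H D1) (fun r p => Sum.elim (rowf (J0 o) BB (bp o p))
    (rowf Finset.univ BC (cp p)) r) ?_
    (fun x => Sum.elim (fun k => b k x.2) (fun k => c k x.2) x.1) δ ?_).mono fun p hp => ?_
  · intro r f _
    rcases r with r | r
    · exact isPol_rowf (J0 o) BB (fun k i => isPol_bp o k i) r f
    · exact isPol_rowf Finset.univ BC (fun k i => isPol_cp k i) r f
  · exact h
  · rw [Z_Z]
    exact hp

omit [DecidableEq σ] [Fintype IB] in
/-- The system on `T^2`: enough points kill everything. -/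
theorem two_gen (A : Finset (σ →₀ ℕ)) (o : σ) (BC : Finset IC)
    (hd : ∀ j, (Fintype.card σ + 1) * BC.card ≤ (sh j A).card)
    (hA : A.card ≤ Fintype.card IC + Fintype.card σ * BC.card) :
    Gen fun p : (IB ⊕ IC) × σ → ℂ => Z (H A) (rowf Finset.univ BC (cp p)) = ⊥ := by
  have huniv : (Finset.univ : Finset σ).card = Fintype.card σ := Finset.card_univ
  obtain ⟨c, hc⟩ := row A Finset.univ ⟨o, Finset.mem_univ o⟩ (H A) le_rfl BC fun j _ => by
    rw [huniv, finrank_H]
    have := hd j
    omega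
  rw [finrank_H, huniv] at hc
  have h0 : finrank ℂ (Z (H A) (rowf Finset.univ BC c)) ≤ 0 := by omega
  have := semi_rowf (τ := (IB ⊕ IC) × σ) Finset.univ BC (H A) cp (fun k i => isPol_cp k i)
    (fun x => Sum.elim (fun _ => 0) (fun k => c k x.2) x.1) 0 h0
  refine this.mono fun p hp => ?_
  exact Submodule.finrank_eq_zero.1 (Nat.le_zero.1 hp)

end res

/-- The trace system for coordinate vectors `u`. -/
theorem trace_exists {σ IA IB : Type} [DecidableEq σ] [Fintype σ] [Fintype IA] [Fintype IB]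
    {n : ℕ} (o : σ) (D : Finset (σ →₀ ℕ)) (hJ : (J0 o).Nonempty) (α : IA → Fin n)
    (β : IB → Fin n)
    (hb : ∀ l, ∀ j ∈ J0 o, ((J0 o).card + 1) * (Finset.univ.filter fun k => α k = l).card ≤
      (sh j (lo o D)).card)
    (ha : ∀ l, (lo o D).card ≤ Fintype.card IA + (Finset.univ.filter fun k => β k = l).card +
      (J0 o).card * (Finset.univ.filter fun k => α k = l).card) :
    ∃ (a : IA → σ → ℂ) (b : IB → σ → ℂ),
      Z (HN n (lo o D)) (trf o (fun k => eu (α k)) (fun k => Function.update (a k) o 0) β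
        (fun k => Function.update (b k) o 0)) = ⊥ := by
  classical
  -- the rows
  have hrow : ∀ l, Gen fun p : (IA ⊕ IB) × σ → ℂ =>
      finrank ℂ (Z (H (lo o D)) (rowf (I := IA ⊕ {k : IB // β k = l}) (J0 o)
        ((Finset.univ.filter fun k => α k = l).map Function.Embedding.inl)
        (fun r i => p (Sum.map id Subtype.val r, i)))) ≤ 0 := by
    intro l
    obtain ⟨y, hy⟩ := row (I := IA ⊕ {k : IB // β k = l}) (lo o D) (J0 o) hJ (H (lo o D)) le_rfl
      ((Finset.univ.filter fun k => α k = l).map Function.Embedding.inl) fun j hj => by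
        rw [finrank_H, Finset.card_map]
        have := hb l j hj
        omega
    have hy0 : finrank ℂ (Z (H (lo o D)) (rowf (J0 o)
        ((Finset.univ.filter fun k => α k = l).map Function.Embedding.inl) y)) ≤ 0 := by
      rw [finrank_H, Finset.card_map, Fintype.card_sum, Fintype.card_subtype] at hy
      have := ha l
      omega
    let p0 : (IA ⊕ IB) × σ → ℂ := fun x =>
      match x.1 with
      | Sum.inl k => y (Sum.inl k) x.2
      | Sum.inr k => if h : β k = l then y (Sum.inr ⟨k, h⟩) x.2 else 0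
    have hp0 : (fun (r : IA ⊕ {k : IB // β k = l}) (i : σ) =>
        p0 (Sum.map id Subtype.val r, i)) = y := by
      funext r i
      rcases r with k | ⟨k, hk⟩
      · rfl
      · simp [p0, hk]
    refine semi_rowf (J0 o) _ (H (lo o D)) (fun (p : (IA ⊕ IB) × σ → ℂ)
      (r : IA ⊕ {k : IB // β k = l}) (i : σ) => p (Sum.map id Subtype.val r, i))
      (fun r i => IsPol.coord _) p0 0 ?_
    rw [hp0]
    exact hy0
  obtain ⟨p, hp⟩ := (Gen.forall hrow).exists
  refine ⟨fun k i => p (Sum.inl k, i), fun k i => p (Sum.inr k, i), ?_⟩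
  rw [eq_bot_iff]
  intro G hG
  rw [mem_Z] at hG
  obtain ⟨hG1, hG2⟩ := hG
  rw [mem_HN] at hG1
  rw [Submodule.mem_bot]
  funext l
  have hl := Submodule.finrank_eq_zero.1 (Nat.le_zero.1 (hp l))
  have : G l ∈ Z (H (lo o D)) (rowf (I := IA ⊕ {k : IB // β k = l}) (J0 o)
        ((Finset.univ.filter fun k => α k = l).map Function.Embedding.inl)
        (fun r i => p (Sum.map id Subtype.val r, i))) := by
    rw [mem_Z_rowf]
    refine ⟨hG1 l, ?_, ?_⟩
    · rintro (k | ⟨k, hk⟩)
      · have := hG2 (Sum.inl (k, Sum.inl l))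
        simp only [trf, evN_apply] at this
        rwa [ev_update (hG1 l)] at this
      · subst hk
        have := hG2 (Sum.inr k)
        simp only [trf, evN_apply] at this
        rwa [ev_update (hG1 _)] at this
    · intro r hr j hj
      obtain ⟨k, hk, rfl⟩ := Finset.mem_map.1 hr
      rw [Finset.mem_filter] at hk
      obtain ⟨-, rfl⟩ := hk
      have := hG2 (Sum.inl (k, Sum.inr ⟨j, mem_J0.1 hj⟩))
      simp only [trf, dvN_eu] at this
      rwa [dv_update (hG1 _)] at this
  rw [hl, Submodule.mem_bot] at this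
  exact this

end Pool.Agent.SV.E
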