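import Pool.Agent.Lib.MP_b54217_ag.E.Jets

/-!
# Double points and simple points on one space of polynomials
-/

set_option autoImplicit false

namespace Pool.Agent.SV.E

open MvPolynomial Module

/-- `h` general double points (directions `J`) on a large subspace `L` of `H A`. -/
theorem doubles {σ : Type} (A : Finset (σ →₀ ℕ)) (J : Finset σ) (hJ : J.Nonempty)
    (L : Submodule ℂ (MvPolynomial σ ℂ)) (hL : L ≤ H A) (h : ℕ)
    (hh : ∀ j ∈ J, A.card + (J.card + 1) * h ≤ finrank ℂ L + (sh j A).card) :
    ∃ y : Fin h → σ → ℂ,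
      finrank ℂ (Z L (rowf J Finset.univ y)) + (J.card + 1) * h ≤ finrank ℂ L := by
  classical
  have hfd : FiniteDimensional ℂ L := Submodule.finiteDimensional_of_le hL
  induction h with
  | zero =>
    refine ⟨fun k => k.elim0, ?_⟩
    simpa using Submodule.finrank_mono (Z_le L _)
  | succ h ih =>
    obtain ⟨y, hy⟩ := ih fun j hj => by
      have := hh j hj
      rw [mul_add] at this
      omega
    set L' := Z L (rowf J Finset.univ y) with hL'
    have hlow : finrank ℂ L ≤ finrank ℂ L' + (J.card + 1) * h := by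
      have := le_finrank_Z L (rowf J Finset.univ y)
      rw [← hL', Fintype.card_sum, Fintype.card_prod, Fintype.card_fin, Fintype.card_coe,
        Fintype.card_coe, Finset.card_univ, Fintype.card_fin] at this
      have h2 : (J.card + 1) * h = h + h * J.card := by ring
      omega
    obtain ⟨y0, hy0⟩ := jets A J hJ L' ((Z_le _ _).trans hL) fun j hj => by
      have := hh j hj
      rw [mul_add] at this
      omega
    refine ⟨Fin.cons y0 y, ?_⟩
    have hcut := finrank_Z_of_surj (R := Option J) L'
      (fun r => match r with | none => ev y0 | some j => dv j.1 y0) fun c => by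
        obtain ⟨f, hf, h1, h2⟩ := hy0 c
        refine ⟨f, hf, ?_⟩
        rintro (_ | j)
        · exact h1
        · exact h2 j
    have hle : Z L (rowf J Finset.univ (Fin.cons y0 y : Fin (h + 1) → σ → ℂ)) ≤
        Z L' (fun r : Option J => match r with | none => ev y0 | some j => dv j.1 y0) := by
      intro f hf
      rw [mem_Z_rowf] at hf
      obtain ⟨hf1, hf2, hf3⟩ := hf
      rw [mem_Z, hL', mem_Z_rowf]
      refine ⟨⟨hf1, fun k => by simpa using hf2 k.succ, fun k _ j hj => by
        simpa using hf3 k.succ (Finset.mem_univ _) j hj⟩, ?_⟩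
      rintro (_ | j)
      · simpa using hf2 0
      · simpa using hf3 0 (Finset.mem_univ _) j.1 j.2
    have := Submodule.finrank_mono hle
    rw [Fintype.card_option, Fintype.card_coe] at hcut
    have h2 : (J.card + 1) * (h + 1) = (J.card + 1) * h + (J.card + 1) := by ring
    omega

/-- Double points at the indices of `B` and simple points at the others. -/
theorem row {σ : Type} (A : Finset (σ →₀ ℕ)) (J : Finset σ) (hJ : J.Nonempty)
    (L : Submodule ℂ (MvPolynomial σ ℂ)) (hL : L ≤ H A) {I : Type} [Fintype I]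
    (B : Finset I)
    (hh : ∀ j ∈ J, A.card + (J.card + 1) * B.card ≤ finrank ℂ L + (sh j A).card) :
    ∃ y : I → σ → ℂ,
      finrank ℂ (Z L (rowf J B y)) ≤ finrank ℂ L - (Fintype.card I + J.card * B.card) := by
  classical
  have hfd : FiniteDimensional ℂ L := Submodule.finiteDimensional_of_le hL
  obtain ⟨y1, hy1⟩ := doubles A J hJ L hL B.card hh
  obtain ⟨y2, hy2⟩ := cut (P := σ → ℂ) (Z L (rowf J Finset.univ y1)) ev
    (fun f _ hf0 => exists_ev_ne hf0) Bᶜ.card
  let y : I → σ → ℂ := fun k =>
    if hk : k ∈ B then y1 (B.equivFin ⟨k, hk⟩)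
    else y2 (Bᶜ.equivFin ⟨k, Finset.mem_compl.2 hk⟩)
  refine ⟨y, ?_⟩
  have hle : Z L (rowf J B y) ≤ Z (Z L (rowf J Finset.univ y1)) (fun k => ev (y2 k)) := by
    intro f hf
    rw [mem_Z_rowf] at hf
    obtain ⟨hf1, hf2, hf3⟩ := hf
    have hB : ∀ k : Fin B.card, y ((B.equivFin.symm k : B) : I) = y1 k := by
      intro k
      have : ((B.equivFin.symm k : B) : I) ∈ B := Subtype.property _
      simp [y]
    rw [mem_Z, mem_Z_rowf]
    refine ⟨⟨hf1, fun k => ?_, fun k _ j hj => ?_⟩, fun k => ?_⟩
    · rw [← hB k]
      exact hf2 _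
    · rw [← hB k]
      exact hf3 _ (Subtype.property _) j hj
    · have hk : ((Bᶜ.equivFin.symm k : (Bᶜ : Finset I)) : I) ∉ B :=
        Finset.mem_compl.1 (Subtype.property _)
      have : y ((Bᶜ.equivFin.symm k : (Bᶜ : Finset I)) : I) = y2 k := by
        simp only [y, dif_neg hk]
        simp
      rw [← this]
      exact hf2 _
  have h1 := Submodule.finrank_mono hle
  have h2 : Bᶜ.card + B.card = Fintype.card I := by
    rw [Finset.card_compl]
    have := Finset.card_le_univ B
    omega
  have h3 : (J.card + 1) * B.card = J.card * B.card + B.card := by ring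
  omega

/-- General position form of `row`: the points may be moved by any polynomial parametrisation
which passes through the special position. -/
theorem semi_rowf {σ τ I : Type} [Finite I] (J : Finset σ) (B : Finset I)
    (L : Submodule ℂ (MvPolynomial σ ℂ)) [FiniteDimensional ℂ L]
    (y : (τ → ℂ) → I → σ → ℂ) (hy : ∀ k i, IsPol fun p => y p k i) (p0 : τ → ℂ) (δ : ℕ)
    (h : finrank ℂ (Z L (rowf J B (y p0))) ≤ δ) :
    Gen fun p => finrank ℂ (Z L (rowf J B (y p))) ≤ δ :=
  semi_gen L (fun r p => rowf J B (y p) r) (fun r f _ => isPol_rowf J B hy r f) p0 δ h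

end Pool.Agent.SV.E
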