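import Pool.Agent.Lib.MP_b54217_ag.E.Main
import Pool.Agent.Lib.MP_b54217_ag.E.Cnt
import Pool.Agent.Lib.MP_b54217_ag.E.Num

/-!
# The case `n ≤ m`
-/

set_option autoImplicit false

namespace Pool.Agent.SV.E

open MvPolynomial Module Pool.Agent.SV.G

/-- For `n ≤ m` the values `r = n (N / (n + m)) + s`. -/
theorem small_pair {k : ℕ} {M d : Fin k → ℕ} {n m : ℕ} (hm : ∑ i, M i = m) (hn : 2 ≤ n)
    (hnm : n ≤ m) (hd : ∀ i, (m + 1) * M i ≤ (n - 1) * (d i - 2)) (i0 : Fin k)
    (hi0 : 1 ≤ M i0)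
    (hbig : (n + m) * (n + m - 1) ^ 2 * (M i0 + d i0) ≤ M i0 * (DD M d).card)
    {s t : ℕ} (hs : s ≤ n) (hst : s + t = (DD M d).card % (n + m)) :
    ∃ (u : Fin (n * ((DD M d).card / (n + m)) + s) → Fin n → ℂ)
      (y : Fin (n * ((DD M d).card / (n + m)) + s) → Sg M → ℂ),
      finrank ℂ (Z (HN n (DD M d)) (full u y)) ≤ n * t - m * s := by
  classical
  have hm2 : 2 ≤ m := hn.trans hnm
  have hcard : Fintype.card (Sg M) = m := by simp [hm]
  have hd1 : ∀ i, 1 ≤ M i → 3 ≤ d i := by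
    intro i hi
    by_contra hlt
    have h1 := hd i
    have h2 : d i - 2 = 0 := by omega
    rw [h2, mul_zero] at h1
    have : 0 < (m + 1) * M i := Nat.mul_pos (by omega) (by omega)
    omega
  have hblock : ∀ x : Sg M, 1 ≤ M x.1 := fun x => by
    have := x.2.2
    omega
  let o : Sg M := ⟨i0, ⟨0, by omega⟩⟩
  have ho : o.1 = i0 := rfl
  have hdo : 3 ≤ d i0 := hd1 i0 hi0
  -- `D'`, `D''`
  have hdw : dw o (DD M d) = DD M (dm i0 d) := dw_DD o (by rw [ho]; omega)
  have hdm : dm i0 d i0 = d i0 - 1 := by simp [dm]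
  have hdw2 : dw o (dw o (DD M d)) = DD M (dm i0 (dm i0 d)) := by
    rw [hdw]
    exact dw_DD o (by rw [ho, hdm]; omega)
  have hdm2 : ∀ i, d i - 2 ≤ dm i0 (dm i0 d) i := by
    intro i
    simp only [dm]
    split_ifs <;> omega
  have hdm1 : ∀ i, d i - 2 ≤ dm i0 d i := by
    intro i
    simp only [dm]
    split_ifs <;> omega
  have hdm0 : ∀ i, d i - 2 ≤ d i := fun i => Nat.sub_le _ _
  -- capacities
  have cap : ∀ (S : Finset (Sg M)) (d' : Fin k → ℕ), (∀ i, d i - 2 ≤ d' i) →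
      (∀ i, bs S i ≤ M i) → ∀ i, 1 ≤ M i →
      (m + 1) * (DS S d').card ≤ (n + m) * (DS S (dm i d')).card := by
    intro S d' hd' hS i hi
    refine cap_of_le ?_ (by omega) ?_
    · have := hd' i
      have := hd1 i hi
      omega
    · calc (m + 1) * bs S i ≤ (m + 1) * M i := Nat.mul_le_mul_left _ (hS i)
        _ ≤ (n - 1) * (d i - 2) := hd i
        _ ≤ _ := Nat.mul_le_mul_left _ (hd' i)
  have hbu : ∀ i, bs (Finset.univ : Finset (Sg M)) i ≤ M i := fun i => (bs_univ i).le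
  have hbe : ∀ i, bs (Finset.univ.erase o) i ≤ M i := fun i => by
    rw [bs_erase]
    split_ifs <;> omega
  have hlo : lo o (DD M d) = DS (Finset.univ.erase o) d := lo_DD o
  have hlo1 : lo o (dw o (DD M d)) = DS (Finset.univ.erase o) (dm i0 d) := by
    rw [hdw]
    exact lo_DD o
  -- the minima
  have hmin : ∀ (S : Finset (Sg M)) (d' : Fin k → ℕ), (∀ i, d i - 2 ≤ d' i) →
      (∀ i, bs S i ≤ M i) → ∃ K, (m + 1) * (DS S d').card ≤ (n + m) * K ∧
        ∀ x ∈ S, K ≤ (sh x (DS S d')).card := by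
    intro S d' hd' hS
    refine ⟨((m + 1) * (DS S d').card + (n + m - 1)) / (n + m), ?_, ?_⟩
    · have h1 := Nat.div_add_mod ((m + 1) * (DS S d').card + (n + m - 1)) (n + m)
      have h2 := Nat.mod_lt ((m + 1) * (DS S d').card + (n + m - 1)) (show 0 < n + m by omega)
      omega
    · intro x hx
      have hdx : 1 ≤ d' x.1 := by
        have := hd' x.1
        have := hd1 x.1 (hblock x)
        omega
      rw [sh_DS hx hdx]
      have h3 := cap S d' hd' hS x.1 (hblock x)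
      have h4 : ((m + 1) * (DS S d').card + (n + m - 1)) / (n + m) <
          (DS S (dm x.1 d')).card + 1 := by
        rw [Nat.div_lt_iff_lt_mul (by omega)]
        have h5 : ((DS S (dm x.1 d')).card + 1) * (n + m) =
            (n + m) * (DS S (dm x.1 d')).card + (n + m) := by ring
        omega
      omega
  obtain ⟨K0, hK0, hK0'⟩ := hmin (Finset.univ.erase o) d hdm0 hbe
  obtain ⟨K10, hK10, hK10'⟩ := hmin (Finset.univ.erase o) (dm i0 d) hdm1 hbe
  obtain ⟨K1, hK1, hK1'⟩ := hmin Finset.univ (dm i0 d) hdm1 hbu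
  obtain ⟨K2, hK2, hK2'⟩ := hmin Finset.univ (dm i0 (dm i0 d)) hdm2 hbu
  have hk3 : (m + 1) * (lo o (DD M d)).card ≤ (n + m) * (lo o (dw o (DD M d))).card := by
    rw [hlo, hlo1]
    exact cap (Finset.univ.erase o) d hdm0 hbe i0 hi0
  rw [← hlo] at hK0 hK0'
  rw [← hlo1] at hK10 hK10'
  rw [DS_univ, ← hdw] at hK1 hK1'
  rw [DS_univ, ← hdw2] at hK2 hK2'
  -- `N_0`
  have hN0 : (n + m) * (n + m - 1) ^ 2 ≤ (lo o (DD M d)).card := by
    have h1 := ratio (Finset.univ : Finset (Sg M)) d i0 (by omega)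
    rw [DS_univ, DS_univ, bs_univ, ← hdw] at h1
    have h2 := card_lo_add_card_dw o (DD M d)
    have h3 : (lo o (DD M d)).card * (M i0 + d i0) = M i0 * (DD M d).card := by
      have h4 : (DD M d).card * (M i0 + d i0) =
          (lo o (DD M d)).card * (M i0 + d i0) + (dw o (DD M d)).card * (M i0 + d i0) := by
        rw [← add_mul, h2]
      rw [← h1] at h4
      have h5 : (DD M d).card * (M i0 + d i0) =
          M i0 * (DD M d).card + (DD M d).card * d i0 := by ring
      omega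
    rw [← h3] at hbig
    exact Nat.le_of_mul_le_mul_right hbig (by omega)
  obtain ⟨x, ρ, q', h, a1, a2, a3, a4, a5, a6, a7, a8, a9, a10, a11⟩ :=
    arith (y := n + m - 1) hn hm2 hnm (by omega) (card_lo_add_card_dw o (DD M d))
      (card_lo_add_card_dw o (dw o (DD M d))) hK0 hK10 hK1 hK2 hk3 hN0 hst
  have hJ0 : (J0 o).card = m - 1 := by
    have := card_J0 o
    rw [hcard] at this
    omega
  have e1 : n + m - 1 = n + (m - 1) := by omega
  have e2 : m - 1 + 1 = m := by omega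
  rw [e1] at a1 a4 a5
  obtain ⟨u, y, huy⟩ := nle o (DD M d) n m (m - 1) x ρ q' s t h hcard hJ0 (by omega) hs a1
    (fun j hj => by
      rw [e2]
      refine a2.trans (hK0' j ?_)
      exact Finset.mem_erase.2 ⟨mem_J0.1 hj, Finset.mem_univ _⟩)
    (fun j hj => by
      rw [e2]
      refine a3.trans (hK10' j ?_)
      exact Finset.mem_erase.2 ⟨mem_J0.1 hj, Finset.mem_univ _⟩)
    a4 (fun j => a5.trans (hK1' j (Finset.mem_univ _))) a6
    (fun j => a7.trans (hK2' j (Finset.mem_univ _))) a8 a9 a10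
  rw [← a11]
  exact ⟨u, y, huy⟩

/-- More points. -/
theorem full_mono {σ : Type} {n : ℕ} {D : Finset (σ →₀ ℕ)} {r r' : ℕ} (h : r ≤ r')
    (hp : Nonempty (σ → ℂ)) {c : ℕ} (hr : ∃ (u : Fin r → Fin n → ℂ) (y : Fin r → σ → ℂ),
      finrank ℂ (Z (HN n D) (full u y)) ≤ c) :
    ∃ (u : Fin r' → Fin n → ℂ) (y : Fin r' → σ → ℂ),
      finrank ℂ (Z (HN n D) (full u y)) ≤ c := by
  obtain ⟨u, y, huy⟩ := hr
  obtain ⟨y0⟩ := hp
  refine ⟨fun a => if ha : (a : ℕ) < r then u ⟨a, ha⟩ else 0,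
    fun a => if ha : (a : ℕ) < r then y ⟨a, ha⟩ else y0, le_trans (Submodule.finrank_mono
      (Z_le_Z _ _ (full u y) fun F _ hF x => ?_)) huy⟩
  obtain ⟨a, x⟩ := x
  have h1 := hF (Fin.castLE h a, x)
  rcases x with l | i
  · simpa [full] using h1
  · simpa [full] using h1

/-- The two critical values of `r`. -/
theorem small_two {k : ℕ} {M d : Fin k → ℕ} {n m : ℕ} (hm : ∑ i, M i = m) (hn : 2 ≤ n)
    (hnm : n ≤ m) (hd : ∀ i, (m + 1) * M i ≤ (n - 1) * (d i - 2)) (i0 : Fin k)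
    (hi0 : 1 ≤ M i0)
    (hbig : (n + m) * (n + m - 1) ^ 2 * (M i0 + d i0) ≤ M i0 * (DD M d).card)
    (r : ℕ) (hr : r = n * (DD M d).card / (n + m) ∨ r = n * (DD M d).card / (n + m) + 1) :
    ∃ (u : Fin r → Fin n → ℂ) (y : Fin r → Sg M → ℂ),
      finrank ℂ (Z (HN n (DD M d)) (full u y)) ≤ n * (DD M d).card - r * (n + m) := by
  obtain ⟨N, hN⟩ : ∃ N, N = (DD M d).card := ⟨_, rfl⟩
  obtain ⟨q, hq⟩ : ∃ q, q = N / (n + m) := ⟨_, rfl⟩
  obtain ⟨w, hw⟩ : ∃ w, w = N % (n + m) := ⟨_, rfl⟩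
  have hNq : (n + m) * q + w = N := by
    rw [hq, hw]
    exact Nat.div_add_mod _ _
  have hwlt : w < n + m := by
    rw [hw]
    exact Nat.mod_lt _ (by omega)
  obtain ⟨s, hs⟩ : ∃ s, s = n * w / (n + m) := ⟨_, rfl⟩
  have hs1 : (n + m) * s ≤ n * w := by
    rw [hs]
    exact Nat.mul_div_le _ _
  have hs2 : n * w < (n + m) * (s + 1) := by
    rw [hs]
    exact Nat.lt_mul_div_succ _ (by omega)
  have hr0 : n * N / (n + m) = n * q + s := by
    have : n * N = n * w + (n + m) * (n * q) := by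
      rw [← hNq]
      ring
    rw [this, Nat.add_mul_div_left _ _ (by omega), ← hs, add_comm]
  have hsn : s < n := by
    have h1 : (n + m) * s < (n + m) * n := by
      calc (n + m) * s ≤ n * w := hs1
        _ < n * (n + m) := Nat.mul_lt_mul_of_pos_left hwlt (by omega)
        _ = (n + m) * n := by ring
    exact Nat.lt_of_mul_lt_mul_left h1
  have hsw : s ≤ w := by
    have h1 : (n + m) * s ≤ (n + m) * w := hs1.trans (Nat.mul_le_mul_right _ (by omega))
    exact Nat.le_of_mul_le_mul_left h1 (by omega)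
  rw [← hN] at hr ⊢
  rw [hr0] at hr
  have key : ∀ s' t', s' ≤ n → s' + t' = w →
      ∃ (u : Fin (n * q + s') → Fin n → ℂ) (y : Fin (n * q + s') → Sg M → ℂ),
      finrank ℂ (Z (HN n (DD M d)) (full u y)) ≤ n * N - (n * q + s') * (n + m) := by
    intro s' t' h1 h2
    have h3 := small_pair hm hn hnm hd i0 hi0 hbig h1 (t := t') (by rw [h2, ← hN]; exact hw)
    rw [← hN, ← hq] at h3
    obtain ⟨u, y, huy⟩ := h3
    refine ⟨u, y, huy.trans ?_⟩
    have e1 : n * N = n * t' + (n * s' + n * ((n + m) * q)) := by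
      rw [← hNq, ← h2]
      ring
    have e2 : (n * q + s') * (n + m) = m * s' + (n * s' + n * ((n + m) * q)) := by ring
    rw [e1, e2, Nat.add_sub_add_right]
  rcases hr with rfl | rfl
  · exact key s (w - s) hsn.le (by omega)
  · by_cases hw0 : s + 1 ≤ w
    · exact key (s + 1) (w - (s + 1)) hsn (by omega)
    · have hw1 : w = s := by omega
      have hs0 : s = 0 := by
        rw [hw1] at hs1
        have h1 : (n + m) * s = n * s + m * s := by ring
        have h2 : m * s = 0 := by omega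
        rcases Nat.mul_eq_zero.1 h2 with h3 | h3
        · omega
        · exact h3
      obtain ⟨u, y, huy⟩ := key s 0 hsn.le (by omega)
      refine full_mono (Nat.le_succ _) ⟨fun _ => 0⟩ ⟨u, y, huy.trans ?_⟩
      have h1 : n * N ≤ (n * q + s) * (n + m) := by
        rw [← hNq, hw1, hs0]
        have : n * ((n + m) * q + 0) = (n * q + 0) * (n + m) := by ring
        omega
      omega

end Pool.Agent.SV.E
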