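import Pool.Agent.Lib.MP_b54217_ag.E.Lo

/-!
# The differential step

Points `A` on `T = {x_o = 0}`, points `B` at height `s → 0` over `T`, points `C` off `T`.
If the trace on `T` is injective then the kernel for some `s ≠ 0` is at most as large as the
limit residual kernel in `(H D')^n`.
-/

set_option autoImplicit false

namespace Pool.Agent.SV.E

open MvPolynomial Module

/-- Coordinate vectors. -/
noncomputable def eu {n : ℕ} (l : Fin n) : Fin n → ℂ := Pi.single l 1

theorem dvN_eu {σ : Type} {n : ℕ} (l : Fin n) (i : σ) (y : σ → ℂ) (F : EN n σ) :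
    dvN (eu l) i y F = dv i y (F l) := by
  rw [dvN_apply, Finset.sum_eq_single l]
  · simp [eu]
  · intro b _ hb
    simp [eu, hb]
  · simp

/-- The trace conditions on `T`: full (without the direction `o`) at `A`, and the value of the own
component at `B`. -/
noncomputable def trf {σ IA IB : Type} [DecidableEq σ] [Fintype σ] {n : ℕ} (o : σ)
    (uA : IA → Fin n → ℂ) (a : IA → σ → ℂ) (β : IB → Fin n) (b : IB → σ → ℂ) :
    (IA × (Fin n ⊕ {i : σ // i ≠ o})) ⊕ IB → (EN n σ →ₗ[ℂ] ℂ)
  | Sum.inl (k, Sum.inl l) => evN l (a k)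
  | Sum.inl (k, Sum.inr i) => dvN (uA k) i.1 (a k)
  | Sum.inr k => evN (β k) (b k)

/-- The limit residual conditions: partial at `A`, `T`-full at `B`, full at `C`. -/
noncomputable def resf {σ IA IB IC : Type} {n : ℕ} (o : σ)
    (uA : IA → Fin n → ℂ) (a : IA → σ → ℂ) (β : IB → Fin n) (b : IB → σ → ℂ)
    (uC : IC → Fin n → ℂ) (c : IC → σ → ℂ) :
    IA ⊕ (IB × (Fin n ⊕ {i : σ // i ≠ o})) ⊕ (IC × (Fin n ⊕ σ)) → (EN n σ →ₗ[ℂ] ℂ)
  | Sum.inl k => evu (uA k) (a k)
  | Sum.inr (Sum.inl (k, Sum.inl l)) => evN l (b k)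
  | Sum.inr (Sum.inl (k, Sum.inr i)) => dvN (eu (β k)) i.1 (b k)
  | Sum.inr (Sum.inr r) => full uC c r

section step

variable {σ IA IB IC : Type} [DecidableEq σ] [Fintype σ] [Finite IA] [Finite IB] [Finite IC]
  {n : ℕ}

omit [Fintype σ] in
theorem isPol_ev_update (o : σ) (y : σ → ℂ) (f : MvPolynomial σ ℂ) :
    IsPol fun p : Unit → ℂ => ev (Function.update y o (p ())) f := by
  refine IsPol.ev f fun i => ?_
  by_cases h : i = o
  · subst h
    simpa using IsPol.coord ()
  · simpa [h] using IsPol.const (y i)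

omit [Fintype σ] in
theorem isPol_dv_update (o : σ) (y : σ → ℂ) (i : σ) (f : MvPolynomial σ ℂ) :
    IsPol fun p : Unit → ℂ => dv i (Function.update y o (p ())) f := by
  refine IsPol.dv i f fun i => ?_
  by_cases h : i = o
  · subst h
    simpa using IsPol.coord ()
  · simpa [h] using IsPol.const (y i)

/-- THE DIFFERENTIAL STEP. -/
theorem step (o : σ) (D : Finset (σ →₀ ℕ))
    (uA : IA → Fin n → ℂ) (a : IA → σ → ℂ) (ha : ∀ k, a k o = 0)
    (β : IB → Fin n) (b : IB → σ → ℂ) (hb : ∀ k, b k o = 0)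
    (uC : IC → Fin n → ℂ) (c : IC → σ → ℂ) (hc : ∀ k, c k o ≠ 0) (δ : ℕ)
    (hTr : Z (HN n (lo o D)) (trf o uA a β b) = ⊥)
    (hRes : finrank ℂ (Z (HN n (dw o D)) (resf o uA a β b uC c)) ≤ δ) :
    ∃ s : ℂ, finrank ℂ (Z (HN n D) (full (Sum.elim uA (Sum.elim (fun k => eu (β k)) uC))
      (Sum.elim a (Sum.elim (fun k => Function.update (b k) o s) c)))) ≤ δ := by
  classical
  cases nonempty_fintype IA
  cases nonempty_fintype IB
  cases nonempty_fintype IC
  -- the left inverse of the trace
  obtain ⟨τ, hτ⟩ : ∃ τ : ((IA × (Fin n ⊕ {i : σ // i ≠ o})) ⊕ IB → ℂ) →ₗ[ℂ] EN n σ,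
      ∀ G ∈ HN n (lo o D), τ (fun r => trf o uA a β b r G) = G := by
    let Φ : HN n (lo o D) →ₗ[ℂ] ((IA × (Fin n ⊕ {i : σ // i ≠ o})) ⊕ IB → ℂ) :=
      LinearMap.pi fun r => (trf o uA a β b r).comp (HN n (lo o D)).subtype
    have hΦ : LinearMap.ker Φ = ⊥ := by
      rw [LinearMap.ker_eq_bot']
      intro G hG
      have h1 : (G : EN n σ) ∈ Z (HN n (lo o D)) (trf o uA a β b) := by
        rw [mem_Z]
        exact ⟨G.2, fun r => congrFun hG r⟩
      rw [hTr, Submodule.mem_bot] at h1
      exact Subtype.ext h1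
    obtain ⟨g, hg⟩ := LinearMap.exists_leftInverse_of_injective Φ hΦ
    refine ⟨(HN n (lo o D)).subtype.comp g, fun G hG => ?_⟩
    have h1 := congrArg Subtype.val (LinearMap.congr_fun hg ⟨G, hG⟩)
    exact h1
  -- the correction `Θ`
  let vec : (Unit → ℂ) → EN n σ → ((IA × (Fin n ⊕ {i : σ // i ≠ o})) ⊕ IB → ℂ) := fun p F r =>
    match r with
    | Sum.inl _ => 0
    | Sum.inr k => dv o (Function.update (b k) o (p ())) (F (β k))
  let vecL : (Unit → ℂ) → EN n σ →ₗ[ℂ] ((IA × (Fin n ⊕ {i : σ // i ≠ o})) ⊕ IB → ℂ) := fun p =>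
    { toFun := vec p
      map_add' := by
        intro F G
        funext r
        rcases r with r | k
        · simp [vec]
        · simp [vec]
      map_smul' := by
        intro t F
        funext r
        rcases r with r | k
        · simp [vec]
        · simp [vec] }
  let Θ : (Unit → ℂ) → EN n σ →ₗ[ℂ] EN n σ := fun p => τ.comp (vecL p)
  have hΘ : ∀ (ψ : (Unit → ℂ) → EN n σ →ₗ[ℂ] ℂ) (F : EN n σ), (∀ G, IsPol fun p => ψ p G) →
      IsPol fun p => ψ p (Θ p F) := by
    intro ψ F hψ
    have h1 : ∀ p, ψ p (Θ p F) = ∑ r, vec p F r * ψ p (τ (Pi.single r 1)) := by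
      intro p
      have h2 : vec p F = ∑ r, vec p F r • Pi.single r (1 : ℂ) := by
        funext r
        simp [Finset.sum_apply, Pi.single_apply]
      change ψ p (τ (vec p F)) = _
      conv_lhs => rw [h2]
      rw [map_sum, map_sum]
      refine Finset.sum_congr rfl fun r _ => ?_
      rw [map_smul, map_smul, smul_eq_mul]
    simp only [h1]
    refine IsPol.sum _ fun r _ => IsPol.mul ?_ (hψ _)
    rcases r with r | k
    · exact IsPol.const 0
    · exact isPol_dv_update o (b k) o (F (β k))
  have hs : IsPol fun p : Unit → ℂ => p () := IsPol.coord ()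
  -- the family of systems
  let M : IA ⊕ (IB × (Fin n ⊕ {i : σ // i ≠ o})) ⊕ (IC × (Fin n ⊕ σ)) → (Unit → ℂ) →
      (EN n σ →ₗ[ℂ] ℂ) := fun r p =>
    match r with
    | Sum.inl k => evu (uA k) (a k)
    | Sum.inr (Sum.inl (k, Sum.inl l)) =>
        evN l (Function.update (b k) o (p ())) + (p ()) • (evN l (b k)).comp (Θ p)
    | Sum.inr (Sum.inl (k, Sum.inr i)) =>
        dvN (eu (β k)) i.1 (Function.update (b k) o (p ())) +
          (p ()) • (dvN (eu (β k)) i.1 (b k)).comp (Θ p)
    | Sum.inr (Sum.inr (k, Sum.inl l)) =>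
        c k o • evN l (c k) + (p () ^ 2) • (evN l (c k)).comp (Θ p)
    | Sum.inr (Sum.inr (k, Sum.inr i)) =>
        c k o • dvN (uC k) i (c k) + (if i = o then evu (uC k) (c k) else 0) +
          (p () ^ 2) • (dvN (uC k) i (c k)).comp (Θ p)
  have hM : ∀ r, ∀ F ∈ HN n (dw o D), IsPol fun p => M r p F := by
    intro r F _
    rcases r with k | ⟨k, l | i⟩ | ⟨k, l | i⟩
    · exact IsPol.const (evu (uA k) (a k) F)
    · refine IsPol.add (isPol_ev_update o (b k) (F l)) (IsPol.mul hs ?_)
      exact hΘ (fun _ => evN l (b k)) F fun G => IsPol.const _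
    · refine IsPol.add ?_ (IsPol.mul hs ?_)
      · simp only [dvN_eu]
        exact isPol_dv_update o (b k) i.1 (F (β k))
      · exact hΘ (fun _ => dvN (eu (β k)) i.1 (b k)) F fun G => IsPol.const _
    · refine IsPol.add (IsPol.const _) (IsPol.mul (hs.pow 2) ?_)
      exact hΘ (fun _ => evN l (c k)) F fun G => IsPol.const _
    · refine IsPol.add (IsPol.const _) (IsPol.mul (hs.pow 2) ?_)
      exact hΘ (fun _ => dvN (uC k) i (c k)) F fun G => IsPol.const _
  have hM0 : finrank ℂ (Z (HN n (dw o D)) fun r => M r fun _ => 0) ≤ δ := by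
    refine le_trans (Submodule.finrank_mono (Z_le_Z _ _ _ fun F _ hF r => ?_)) hRes
    have hupd : ∀ k, Function.update (b k) o (0 : ℂ) = b k := by
      intro k
      rw [← hb k, Function.update_eq_self]
    have hC : ∀ k l, evN l (c k) F = 0 := by
      intro k l
      have := hF (Sum.inr (Sum.inr (k, Sum.inl l)))
      simp only [M, LinearMap.add_apply, LinearMap.smul_apply, smul_eq_mul, ne_eq,
        OfNat.ofNat_ne_zero, not_false_eq_true, zero_pow, zero_mul, add_zero,
        mul_eq_zero] at this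
      exact this.resolve_left (hc k)
    rcases r with k | ⟨k, l | i⟩ | ⟨k, l | i⟩
    · exact hF (Sum.inl k)
    · have := hF (Sum.inr (Sum.inl (k, Sum.inl l)))
      simpa [M, hupd, resf] using this
    · have := hF (Sum.inr (Sum.inl (k, Sum.inr i)))
      simpa [M, hupd, resf] using this
    · exact hC k l
    · have := hF (Sum.inr (Sum.inr (k, Sum.inr i)))
      have h0 : (if i = o then evu (uC k) (c k) else 0) F = 0 := by
        split_ifs
        · rw [evu_apply]
          exact Finset.sum_eq_zero fun l _ => by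
            have := hC k l
            rw [evN_apply] at this
            rw [this, mul_zero]
        · rfl
      simp only [M, LinearMap.add_apply, LinearMap.smul_apply, smul_eq_mul, ne_eq,
        OfNat.ofNat_ne_zero, not_false_eq_true, zero_pow, zero_mul, add_zero, h0,
        mul_eq_zero] at this
      exact this.resolve_left (hc k)
  -- general `s`
  obtain ⟨p, hp1, hp2⟩ := ((semi_gen _ M hM (fun _ => 0) δ hM0).and
    (⟨fun p => p (), hs, ⟨fun _ => 1, one_ne_zero⟩, fun p hp => hp⟩ :
      Gen fun p : Unit → ℂ => p () ≠ 0)).exists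
  set s := p () with hsdef
  refine ⟨s, le_trans ?_ hp1⟩
  -- the kernel for `s` is an image of the kernel of `M`
  let κ : EN n σ →ₗ[ℂ] EN n σ := (s ^ 2) • Θ p + LinearMap.pi fun l =>
    (LinearMap.mulLeft ℂ (X o : MvPolynomial σ ℂ)).comp (LinearMap.proj l)
  have hκ : ∀ F l, κ F l = (s ^ 2) • Θ p F l + X o * F l := fun F l => rfl
  refine le_trans (Submodule.finrank_mono (?_ : _ ≤ (Z (HN n (dw o D)) fun r => M r p).map κ))
    (Submodule.finrank_map_le _ _)
  intro F hF
  rw [mem_Z_full] at hF
  obtain ⟨hFD, hF1, hF2⟩ := hF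
  rw [mem_HN] at hFD
  choose G hG F' hF' hFG using fun l => exists_decomp o (hFD l)
  have hGN : (G : EN n σ) ∈ HN n (lo o D) := mem_HN.2 hG
  -- conditions at `A`
  have A1 : ∀ k l, ev (a k) (G l) = 0 := by
    intro k l
    have := hF1 (Sum.inl k) l
    rw [hFG l, map_add, Sum.elim_inl, ev_Xmul, ha, zero_mul, add_zero] at this
    exact this
  have A2 : ∀ k i, i ≠ o → ∑ l, uA k l * dv i (a k) (G l) = 0 := by
    intro k i hi
    have := hF2 (Sum.inl k) i
    rw [← this]
    refine Finset.sum_congr rfl fun l _ => ?_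
    rw [hFG l, map_add, Sum.elim_inl, Sum.elim_inl, dv_Xmul, if_neg hi, ha, zero_mul, add_zero,
      add_zero]
  have A3 : ∀ k, ∑ l, uA k l * ev (a k) (F' l) = 0 := by
    intro k
    have := hF2 (Sum.inl k) o
    rw [← this]
    refine Finset.sum_congr rfl fun l _ => ?_
    rw [hFG l, map_add, Sum.elim_inl, Sum.elim_inl, dv_Xmul, if_pos rfl, ha, zero_mul, add_zero,
      dv_o (hG l), zero_add]
  -- conditions at `B`
  have hsum : ∀ k (i : σ) (y : σ → ℂ),
      ∑ l, eu (β k) l * dv i y (F l) = dv i y (F (β k)) := by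
    intro k i y
    rw [← dvN_apply, dvN_eu]
  have B1 : ∀ k l, ev (b k) (G l) + s * ev (Function.update (b k) o s) (F' l) = 0 := by
    intro k l
    have := hF1 (Sum.inr (Sum.inl k)) l
    rw [hFG l, map_add, Sum.elim_inr, Sum.elim_inl, ev_Xmul, ev_update (hG l)] at this
    rw [← this, Function.update_self]
  have B2 : ∀ k, ev (Function.update (b k) o s) (F' (β k)) +
      s * dv o (Function.update (b k) o s) (F' (β k)) = 0 := by
    intro k
    have := hF2 (Sum.inr (Sum.inl k)) o
    rw [Sum.elim_inr, Sum.elim_inl, Sum.elim_inr, Sum.elim_inl, hsum, hFG (β k), map_add,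
      dv_o (hG _), dv_Xmul, if_pos rfl, zero_add, Function.update_self] at this
    exact this
  have B3 : ∀ k i, i ≠ o → dv i (b k) (G (β k)) +
      s * dv i (Function.update (b k) o s) (F' (β k)) = 0 := by
    intro k i hi
    have := hF2 (Sum.inr (Sum.inl k)) i
    rw [Sum.elim_inr, Sum.elim_inl, Sum.elim_inr, Sum.elim_inl, hsum, hFG (β k), map_add,
      dv_update (hG _), dv_Xmul, if_neg hi, zero_add, Function.update_self] at this
    exact this
  -- the trace
  have hGΘ : (G : EN n σ) = (s ^ 2) • Θ p F' := by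
    have h1 : (fun r => trf o uA a β b r G) = (s ^ 2) • vec p F' := by
      funext r
      rcases r with ⟨k, l | i⟩ | k
      · simp only [trf, evN_apply, A1, Pi.smul_apply, vec, smul_zero]
      · simp only [trf, dvN_apply, Pi.smul_apply, vec, smul_zero]
        exact A2 k i.1 i.2
      · simp only [trf, evN_apply, Pi.smul_apply, vec, smul_eq_mul]
        have e1 := B1 k (β k)
        have e2 := B2 k
        rw [← hsdef]
        linear_combination e1 - s * e2
    have h2 := hτ G hGN
    rw [h1, map_smul] at h2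
    exact h2.symm
  have hGl : ∀ l, G l = (s ^ 2) • Θ p F' l := fun l => congrFun hGΘ l
  refine ⟨F', ?_, ?_⟩
  · change F' ∈ Z (HN n (dw o D)) fun r => M r p
    rw [mem_Z]
    refine ⟨mem_HN.2 hF', fun r => ?_⟩
    rcases r with k | ⟨k, l | i⟩ | ⟨k, l | i⟩
    · simp only [M, evu_apply]
      exact A3 k
    · have e1 := B1 k l
      rw [hGl l, map_smul, smul_eq_mul] at e1
      simp only [M, LinearMap.add_apply, LinearMap.smul_apply, LinearMap.comp_apply, evN_apply,
        smul_eq_mul]
      rw [← hsdef]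
      have : s * (ev (Function.update (b k) o s) (F' l) + s * ev (b k) (Θ p F' l)) = 0 := by
        linear_combination e1
      exact (mul_eq_zero.1 this).resolve_left hp2
    · have e1 := B3 k i.1 i.2
      rw [hGl, map_smul, smul_eq_mul] at e1
      simp only [M, LinearMap.add_apply, LinearMap.smul_apply, LinearMap.comp_apply, dvN_eu,
        smul_eq_mul]
      rw [← hsdef]
      have : s * (dv i.1 (Function.update (b k) o s) (F' (β k)) +
          s * dv i.1 (b k) (Θ p F' (β k))) = 0 := by
        linear_combination e1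
      exact (mul_eq_zero.1 this).resolve_left hp2
    · have e1 := hF1 (Sum.inr (Sum.inr k)) l
      rw [hFG l, map_add, Sum.elim_inr, Sum.elim_inr, ev_Xmul, hGl l, map_smul,
        smul_eq_mul] at e1
      simp only [M, LinearMap.add_apply, LinearMap.smul_apply, LinearMap.comp_apply, evN_apply,
        smul_eq_mul]
      rw [← hsdef]
      linear_combination e1
    · have e1 := hF2 (Sum.inr (Sum.inr k)) i
      simp only [Sum.elim_inr] at e1
      have e2 : ∀ l, uC k l * dv i (c k) (F l) = c k o * (uC k l * dv i (c k) (F' l)) +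
          (if i = o then uC k l * ev (c k) (F' l) else 0) +
          s ^ 2 * (uC k l * dv i (c k) (Θ p F' l)) := by
        intro l
        rw [hFG l, map_add, dv_Xmul, hGl l, map_smul, smul_eq_mul]
        split_ifs <;> ring
      rw [Finset.sum_congr rfl fun l _ => e2 l, Finset.sum_add_distrib,
        Finset.sum_add_distrib, ← Finset.mul_sum, ← Finset.mul_sum] at e1
      simp only [M, LinearMap.add_apply, LinearMap.smul_apply, LinearMap.comp_apply, dvN_apply,
        smul_eq_mul]
      rw [← hsdef, ← e1]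
      congr 2
      split_ifs
      · rw [evu_apply]
      · simp
  · funext l
    rw [hκ, hFG l, hGl l]

end step

end Pool.Agent.SV.E
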